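import Pool.Agent.G3.E.Defs
import Pool.Agent.G3.C.Main

/-!
# G3 E BCx: `BC` from block (C)
-/

set_option autoImplicit false

open Topology Filter Metric

namespace Pool.Agent.G3.E

open Pool.Agent.H36.BP (EN fs wd)
open Pool.Agent.H14.PP (IsCone CurveAt Tan)
open Pool.Agent.H62.EF (MN pr)
open Pool.Agent.AD (Vd Chart Charts IsGerm)
open Pool.Agent.TG
open Pool.Agent.G3.A
open Pool.Agent.G3.C (Gc TDat JForm block_C)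

variable {N k : ℕ} {X : Set (EN N)} {Λ : AddSubgroup (Vd (k + 1))} {u : EN N → Vd (k + 1)} {ν a b : Vd (k + 1)} {m : ℕ} {ρ : ℝ}
  {LT : AddSubgroup (ℝ × ℂ)} {Dt Bd : Set (ℂ × ℂ)} {FF : Set (ℝ → ℂ → MN N)}

theorem bc_of_tdat {d : ℕ} (hch : Charts d X) (D : TDat X Λ u a ν b LT Dt Bd ρ FF) (hFF : ∀ f ∈ Hc X Λ u a b, ∃ Φ ∈ FF, ∀ z, Φ 0 z = f z) {P : JForm X Λ u ν m}
    (hP : P.Thin) : BC X Λ u a ν b := by
  obtain ⟨ε, hε, h⟩ := block_C hch D hP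
  refine ⟨ε, hε, fun f hf => ?_⟩
  obtain ⟨Φ, hΦ, hΦf⟩ := hFF f hf
  obtain ⟨Ψ, h1, h2, h3⟩ := h Φ hΦ
  refine ⟨Ψ, fun z => ?_, fun ζ hζ => ?_, h3⟩
  · rw [← hΦf, ← h1 0 z, Complex.ofReal_zero]
  · obtain ⟨F, hF, hFΨ⟩ := h2 ζ hζ
    exact ⟨F, hF, funext hFΨ⟩

end Pool.Agent.G3.E
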