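import Pool.Agent.G3.E.Defs

/-!
# G3 E Bs: the set `B` made invariant; a basis

`BL B Λ = {b + l}`.  `geo_bl`: `B_lines` for `BL`: `Λ` is countable (discrete), for every `l ∈ Λ` almost every `y` has `y - l` off the exceptional null set (translation invariance of the volume).
-/

set_option autoImplicit false

open Topology Filter Metric MeasureTheory

namespace Pool.Agent.G3.E

open Pool.Agent.H36.BP (EN fs wd)
open Pool.Agent.H14.PP (IsCone CurveAt Tan)
open Pool.Agent.H62.EF (MN pr)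
open Pool.Agent.AD (Vd Chart Charts IsGerm)
open Pool.Agent.TG
open Pool.Agent.G3.A
open Pool.Agent.G3.C (Gc)

variable {N k : ℕ} {X : Set (EN N)} {Λ : AddSubgroup (Vd (k + 1))} {u : EN N → Vd (k + 1)} {D B : Set (Vd (k + 1))}

/-- the set `B + Λ` -/
def BL (B : Set (Vd (k + 1))) (Λ : AddSubgroup (Vd (k + 1))) : Set (Vd (k + 1)) := {y | ∃ b ∈ B, y - b ∈ Λ}

theorem sub_bl : B ⊆ BL B Λ := fun b hb => ⟨b, hb, by rw [sub_self]; exact Λ.zero_mem⟩

theorem bl_inv : ∀ β ∈ BL B Λ, ∀ l ∈ Λ, β + l ∈ BL B Λ := by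
  rintro β ⟨b, hb, h⟩ l hl
  refine ⟨b, hb, ?_⟩
  have e : β + l - b = (β - b) + l := by abel
  rw [e]
  exact Λ.add_mem h hl

theorem bl_fin (h : ∃ S : Set (Vd (k + 1)), S.Finite ∧ ∀ b ∈ B, ∃ s ∈ S, b - s ∈ Λ) : ∃ S : Set (Vd (k + 1)), S.Finite ∧ ∀ b ∈ BL B Λ, ∃ s ∈ S, b - s ∈ Λ := by
  obtain ⟨S, hS, h⟩ := h
  refine ⟨S, hS, ?_⟩
  rintro β ⟨b, hb, hβ⟩
  obtain ⟨s, hs, hbs⟩ := h b hb
  refine ⟨s, hs, ?_⟩
  have e : β - s = (β - b) + (b - s) := by abel
  rw [e]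
  exact Λ.add_mem hβ hbs

theorem lat_countable (hl : Lat Λ) : (Λ : Set (Vd (k + 1))).Countable := by
  obtain ⟨δ, hδ, h⟩ := hl.disc
  have hd : DiscreteTopology (Λ : Set (Vd (k + 1))) := by
    refine DiscreteTopology.of_forall_le_dist hδ ?_
    intro x y hxy
    by_contra hlt
    push Not at hlt
    apply hxy
    have h1 : (x : Vd (k + 1)) - y ∈ Λ := Λ.sub_mem x.2 y.2
    have h2 : ‖(x : Vd (k + 1)) - y‖ < δ := by
      rw [← dist_eq_norm]
      exact hlt
    exact Subtype.ext (sub_eq_zero.1 (h _ h1 h2))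
  exact Set.countable_coe_iff.1 (TopologicalSpace.separableSpace_iff_countable.1 inferInstance)

theorem geo_bl (G : Geo X Λ u D B) : Geo X Λ u D (BL B Λ) where
  cone := G.cone
  charts := G.charts
  tor := G.tor
  lat := G.lat
  D_closed := G.D_closed
  D_inv := G.D_inv
  D_thin := G.D_thin
  B_lines := fun e he => by
    have hc := lat_countable G.lat
    have h0 := G.B_lines e he
    have h1 : ∀ l ∈ (Λ : Set (Vd (k + 1))), ∀ᵐ y : Vd (k + 1), ∀ z : ℂ, (y - l) + z • e ∉ B := by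
      intro l _
      have hq : Filter.Tendsto (fun y : Vd (k + 1) => y - l) (ae volume) (ae volume) :=
        (measurePreserving_sub_right volume l).quasiMeasurePreserving.tendsto_ae
      exact hq.eventually h0
    have h2 : ∀ᵐ y : Vd (k + 1), ∀ l ∈ (Λ : Set (Vd (k + 1))), ∀ z : ℂ, (y - l) + z • e ∉ B := (ae_ball_iff hc).2 h1
    filter_upwards [h2] with y hy
    rintro z ⟨b, hb, hl⟩
    apply hy _ hl z
    have e1 : y - (y + z • e - b) + z • e = b := by abel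
    rw [e1]
    exact hb
  sub := G.sub
  fib := G.fib
  nc := fun y hy hyB => G.nc y hy fun h => hyB (sub_bl h)

/-- coordinates with respect to `ν`, `a` -/
theorem basis_of_span {ν a : Vd (1 + 1)} (h : ∀ v : Vd (1 + 1), ∃ s z : ℂ, v = s • ν + z • a) :
    ∃ L : Vd (1 + 1) ≃L[ℂ] ℂ × ℂ, ∀ y, y = (L y).1 • ν + (L y).2 • a := by
  obtain ⟨M, hM⟩ : ∃ M : ℂ × ℂ →ₗ[ℂ] Vd (1 + 1), ∀ p, M p = p.1 • ν + p.2 • a :=
    ⟨(LinearMap.fst ℂ ℂ ℂ).smulRight ν + (LinearMap.snd ℂ ℂ ℂ).smulRight a, fun p => by simp⟩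
  have hsur : Function.Surjective M := by
    intro v
    obtain ⟨s, z, hv⟩ := h v
    exact ⟨(s, z), by rw [hM, hv]⟩
  have hrk : Module.finrank ℂ (ℂ × ℂ) = Module.finrank ℂ (Vd (1 + 1)) := by
    simp [Vd]
  have hinj : Function.Injective M := (LinearMap.injective_iff_surjective_of_finrank_eq_finrank hrk).2 hsur
  refine ⟨(LinearEquiv.ofBijective M ⟨hinj, hsur⟩).toContinuousLinearEquiv.symm, fun y => ?_⟩
  have h1 : M ((LinearEquiv.ofBijective M ⟨hinj, hsur⟩).toContinuousLinearEquiv.symm y) = y := by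
    exact (LinearEquiv.ofBijective M ⟨hinj, hsur⟩).apply_symm_apply y
  rw [hM] at h1
  exact h1.symm

end Pool.Agent.G3.E
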