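import Pool.Agent.G3.E.Mer1
import Pool.Agent.G3.C.HankelU

/-!
# G3 E Gen: on all but countably many parallel lines the lifts do not vanish identically

For every `y` a ball `β_y` (sup norm, so convex) on which the lift `G_y` is holomorphic; countably many balls cover `ℂ²` (`TopologicalSpace.countable_cover_nhds`).  For a ball `β` and its lift `G` (not
identically `0` on `β`) the set of the `w` such that `G` vanishes on `{z | w • τ + z • e ∈ β} ≠ ∅` is countable: otherwise, for some `z_q` of a countable dense set, uncountably many of these `w` have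
`w • τ + z_q • e ∈ β` (the sets `{z | w • τ + z • e ∈ β}` are open), they have an accumulation point among them (`C.hankel_acc`), near it `G (w • τ + z • e)`, `z` near `z_q` fixed, has non-isolated zeros, so `G = 0`
near a point of `β`, contradiction to the identity theorem on the convex open set `β`.
-/

set_option autoImplicit false

open Topology Filter Metric

namespace Pool.Agent.G3.E

open Pool.Agent.H36.BP (EN fs wd)
open Pool.Agent.H14.PP (IsCone CurveAt Tan)
open Pool.Agent.H62.EF (MN pr)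
open Pool.Agent.AD (Vd Chart Charts IsGerm)
open Pool.Agent.TG
open Pool.Agent.G3.A
open Pool.Agent.G3.C (Gc)

variable {N k : ℕ}

/-- the exceptional lines of one ball -/
private theorem gen_ball {G : Vd (1 + 1) → EN N} {y : Vd (1 + 1)} {r : ℝ} (hr : 0 < r) (hG : AnalyticOnNhd ℂ G (ball y r)) (hne : ∃ p ∈ ball y r, G p ≠ 0)
    {τ e : Vd (1 + 1)} (L : Vd (1 + 1) ≃L[ℂ] ℂ × ℂ) (hL : ∀ y : Vd (1 + 1), y = (L y).1 • τ + (L y).2 • e) :
    {w : ℂ | ∃ z : ℂ, w • τ + z • e ∈ ball y r ∧ ∀ᶠ v in 𝓝 (0 : ℂ), G (w • τ + z • e + v • e) = 0}.Countable := by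
  classical
  have hLM : ∀ x : ℂ × ℂ, L (x.1 • τ + x.2 • e) = x := by
    intro x
    have h1 := hL (L.symm x)
    rw [L.apply_symm_apply] at h1
    rw [← h1, L.apply_symm_apply]
  have hlz : ∀ (w t : ℂ), AnalyticAt ℂ (fun z : ℂ => w • τ + z • e) t := fun w t =>
    (analyticAt_const (v := w • τ)).add (analyticAt_id.smul analyticAt_const)
  have hlw : ∀ (z t : ℂ), AnalyticAt ℂ (fun w : ℂ => w • τ + z • e) t := fun z t =>
    (analyticAt_id.smul analyticAt_const).add (analyticAt_const (v := z • e))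
  -- the slices
  have hslice : ∀ w z : ℂ, w • τ + z • e ∈ ball y r → (∀ᶠ v in 𝓝 (0 : ℂ), G (w • τ + z • e + v • e) = 0) → ∀ z' : ℂ, w • τ + z' • e ∈ ball y r → G (w • τ + z' • e) = 0 := by
    intro w z hz hv z' hz'
    obtain ⟨S, hS⟩ : ∃ S : Set ℂ, S = {z | w • τ + z • e ∈ ball y r} := ⟨_, rfl⟩
    have hSc : Convex ℝ S := by
      rw [hS]
      intro t ht t' ht' c c' hc hc' hcc
      show w • τ + (c • t + c' • t') • e ∈ ball y r
      have e0 : w • τ + (c • t + c' • t') • e = c • (w • τ + t • e) + c' • (w • τ + t' • e) := by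
        have e1 : w • τ = c • (w • τ) + c' • (w • τ) := by rw [← add_smul, hcc, one_smul]
        calc w • τ + (c • t + c' • t') • e = (c • (w • τ) + c' • (w • τ)) + (c • t + c' • t') • e := by rw [← e1]
          _ = c • (w • τ + t • e) + c' • (w • τ + t' • e) := by
            rw [add_smul, smul_assoc, smul_assoc, smul_add, smul_add]
            abel
      rw [e0]
      exact convex_ball y r ht ht' hc hc' hcc
    have han : AnalyticOnNhd ℂ (fun z : ℂ => G (w • τ + z • e)) S := by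
      intro t ht
      rw [hS] at ht
      exact AnalyticAt.comp (g := G) (f := fun z : ℂ => w • τ + z • e) (hG _ ht) (hlz w t)
    have hzS : z ∈ S := by rw [hS]; exact hz
    have hz'S : z' ∈ S := by rw [hS]; exact hz'
    have h0 : (fun z : ℂ => G (w • τ + z • e)) =ᶠ[𝓝 z] 0 := by
      have ht0 : Tendsto (fun t : ℂ => t - z) (𝓝 z) (𝓝 0) := by
        have h1 : Continuous (fun t : ℂ => t - z) := by fun_prop
        have h2 := h1.tendsto z
        rwa [sub_self] at h2
      filter_upwards [ht0.eventually hv] with t ht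
      have e1 : w • τ + t • e = w • τ + z • e + (t - z) • e := by
        rw [sub_smul]
        abel
      show G (w • τ + t • e) = 0
      rw [e1]
      exact ht
    exact han.eqOn_zero_of_preconnected_of_eventuallyEq_zero hSc.isPreconnected hzS h0 hz'S
  -- a dense sequence
  obtain ⟨Q, hQc, hQd⟩ := TopologicalSpace.exists_countable_dense ℂ
  obtain ⟨T, hT⟩ : ∃ T : ℂ → Set ℂ, ∀ q w, w ∈ T q ↔ (w • τ + q • e ∈ ball y r ∧ ∀ z' : ℂ, w • τ + z' • e ∈ ball y r → G (w • τ + z' • e) = 0) :=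
    ⟨fun q => {w | w • τ + q • e ∈ ball y r ∧ ∀ z' : ℂ, w • τ + z' • e ∈ ball y r → G (w • τ + z' • e) = 0}, fun _ _ => Iff.rfl⟩
  have hsub : {w : ℂ | ∃ z : ℂ, w • τ + z • e ∈ ball y r ∧ ∀ᶠ v in 𝓝 (0 : ℂ), G (w • τ + z • e + v • e) = 0} ⊆ ⋃ q ∈ Q, T q := by
    rintro w ⟨z, hz, hv⟩
    have hcz : Continuous (fun z : ℂ => w • τ + z • e) := by fun_prop
    have ho : IsOpen {z : ℂ | w • τ + z • e ∈ ball y r} := isOpen_ball.preimage hcz
    obtain ⟨q, hq1, hq2⟩ := hQd.inter_open_nonempty _ ho ⟨z, hz⟩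
    exact Set.mem_biUnion hq2 ((hT q w).2 ⟨hq1, hslice w z hz hv⟩)
  refine Set.Countable.mono hsub (hQc.biUnion fun q _ => ?_)
  by_contra hunc
  obtain ⟨w₀, hw₀, hacc⟩ := Pool.Agent.G3.C.hankel_acc hunc
  obtain ⟨hw₀b, -⟩ := (hT q w₀).1 hw₀
  have hcp : Continuous (fun p : ℂ × ℂ => p.1 • τ + p.2 • e) := by fun_prop
  have hnb : ∀ᶠ p : ℂ × ℂ in 𝓝 (w₀, q), p.1 • τ + p.2 • e ∈ ball y r := hcp.continuousAt.eventually (isOpen_ball.mem_nhds hw₀b)
  obtain ⟨δ, hδ, hball⟩ := Metric.eventually_nhds_iff_ball.1 hnb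
  have hzero : ∀ w z : ℂ, (w, z) ∈ ball ((w₀, q) : ℂ × ℂ) δ → G (w • τ + z • e) = 0 := by
    intro w z hwz
    rw [← ball_prod_same] at hwz
    obtain ⟨hw, hz⟩ := hwz
    have hin : ∀ w' ∈ ball w₀ δ, w' • τ + z • e ∈ ball y r := fun w' hw' => hball (w', z) (by
      rw [← ball_prod_same]
      exact ⟨hw', hz⟩)
    have han : AnalyticOnNhd ℂ (fun w : ℂ => G (w • τ + z • e)) (ball w₀ δ) := fun w' hw' =>
      AnalyticAt.comp (g := G) (f := fun w : ℂ => w • τ + z • e) (hG _ (hin w' hw')) (hlw z w')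
    have hfr : ∃ᶠ w' in 𝓝[≠] w₀, (fun w : ℂ => G (w • τ + z • e)) w' = 0 := by
      have h1 : ∀ᶠ w' in 𝓝[≠] w₀, w' ∈ ball w₀ δ := mem_nhdsWithin_of_mem_nhds (ball_mem_nhds w₀ hδ)
      refine (hacc.and_eventually h1).mono fun w' hw' => ?_
      exact ((hT q w').1 hw'.1).2 z (hin w' hw'.2)
    exact han.eqOn_zero_of_preconnected_of_frequently_eq_zero (convex_ball w₀ δ).isPreconnected (mem_ball_self hδ) hfr hw
  have hev : G =ᶠ[𝓝 (w₀ • τ + q • e)] 0 := by
    have h1 : ContinuousAt L (w₀ • τ + q • e) := L.continuous.continuousAt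
    have h2 : L (w₀ • τ + q • e) = (w₀, q) := hLM (w₀, q)
    have h3 : ∀ᶠ p in 𝓝 (w₀ • τ + q • e), L p ∈ ball ((w₀, q) : ℂ × ℂ) δ := by
      have h4 : ball ((w₀, q) : ℂ × ℂ) δ ∈ 𝓝 (L (w₀ • τ + q • e)) := by
        rw [h2]
        exact ball_mem_nhds _ hδ
      exact h1.eventually h4
    filter_upwards [h3] with p hp
    have h5 := hzero (L p).1 (L p).2 hp
    rw [← hL p] at h5
    exact h5
  obtain ⟨p, hp, hp0⟩ := hne
  exact hp0 (hG.eqOn_zero_of_preconnected_of_eventuallyEq_zero (convex_ball y r).isPreconnected hw₀b hev hp)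

theorem gen_lines {D : Set (Vd (1 + 1))} {φ : Vd (1 + 1) → MN N} {a : Vd (1 + 1)} (hm : ∀ y, MG D φ a y) {τ e : Vd (1 + 1)} (L : Vd (1 + 1) ≃L[ℂ] ℂ × ℂ)
    (hL : ∀ y, y = (L y).1 • τ + (L y).2 • e) : {w : ℂ | ¬ ∀ z : ℂ, MG D φ e (w • τ + z • e)}.Countable := by
  classical
  have hball : ∀ y : Vd (1 + 1), ∃ (G : Vd (1 + 1) → EN N) (r : ℝ), 0 < r ∧ AnalyticOnNhd ℂ G (ball y r) ∧ (∃ p ∈ ball y r, G p ≠ 0) ∧
      ∀ z ∈ ball y r, z ∉ D → G z ≠ 0 → φ z = pr (G z) := by
    intro y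
    obtain ⟨G, hGa, hGf, hGe⟩ := hm y
    obtain ⟨r, hr, hrb⟩ := Metric.eventually_nhds_iff_ball.1 (hGa.eventually_analyticAt.and hGe)
    refine ⟨G, r, hr, fun z hz => (hrb z hz).1, ?_, fun z hz => (hrb z hz).2⟩
    have h1 : ∀ᶠ w : ℂ in 𝓝 0, y + w • a ∈ ball y r := by
      have hc : Continuous (fun w : ℂ => y + w • a) := by fun_prop
      have h2 := hc.tendsto 0
      rw [zero_smul, add_zero] at h2
      exact h2.eventually (ball_mem_nhds y hr)
    obtain ⟨w, hw1, hw2⟩ := (hGf.and_eventually h1).exists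
    exact ⟨y + w • a, hw2, hw1⟩
  choose G r hr hGa hGn hGe using hball
  obtain ⟨s, hs, hcov⟩ := TopologicalSpace.countable_cover_nhds (f := fun y => ball y (r y)) (fun y => ball_mem_nhds y (hr y))
  refine Set.Countable.mono ?_ (hs.biUnion fun y _ => gen_ball (hr y) (hGa y) (hGn y) L hL)
  intro w hw
  by_contra hcon
  apply hw
  intro z
  have h1 : w • τ + z • e ∈ ⋃ y ∈ s, ball y (r y) := by
    rw [hcov]
    exact Set.mem_univ _
  obtain ⟨y, hys, hy⟩ := Set.mem_iUnion₂.1 h1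
  refine ⟨G y, hGa y _ hy, ?_, ?_⟩
  · intro hnf
    apply hcon
    refine Set.mem_biUnion hys ⟨z, hy, ?_⟩
    filter_upwards [hnf] with v hv
    simpa using hv
  · filter_upwards [isOpen_ball.mem_nhds hy] with p hp
    exact hGe y p hp

end Pool.Agent.G3.E
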