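import Pool.Agent.G3.E.Mer1
import Pool.Agent.TG.Cn

/-!
# G3 E Idt: the identity theorem for sections

`hol_ident`: the set of the `y ∉ D` near which `φ = ψ` is open, and closed in `Dᶜ` (minors of the lifts), `Dᶜ` is preconnected (`TG.compl_conn`); as `TG/SbB.sb_uniq`.
`hol_ident_lines`: the `w ∈ T` are uncountably many, so there is an accumulation point `w* ∈ T` (`C.hankel_acc`); `z*` with `w* • τ + z* • e ∉ D`; for `z` near `z*` the minors of the lifts at `w* • τ + z • e`, as functions of `w`,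
have a non-isolated zero at `w*`, so they vanish near the point.
-/

set_option autoImplicit false

open Topology Filter Metric

namespace Pool.Agent.G3.E

open Pool.Agent.H36.BP (EN fs wd)
open Pool.Agent.H14.PP (IsCone CurveAt Tan)
open Pool.Agent.H62.EF (MN pr)
open Pool.Agent.AD (Vd Chart Charts IsGerm)
open Pool.Agent.TG
open Pool.Agent.G3.A
open Pool.Agent.G3.C (Gc)

variable {N k : ℕ}

private theorem it_ne {X : Set (EN N)} (hX : IsCone X) {x : EN N} (hx : x ∈ X) : x ≠ 0 := fun h => hX.zero_notMem (h ▸ hx)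

private theorem it_pr_eq {x y : EN N} (hx : x ≠ 0) (hy : y ≠ 0) (h : ∀ i j, x i * y j = x j * y i) : pr x = pr y := by
  obtain ⟨j, hj⟩ : ∃ j, y j ≠ 0 := by
    by_contra h
    push Not at h
    apply hy
    ext i
    exact h i
  have h1 : x = (x j / y j) • y := by
    ext i
    show x i = x j / y j * y i
    rw [div_mul_eq_mul_div, ← h i j, mul_div_assoc, div_self hj, mul_one]
  have h2 : x j / y j ≠ 0 := by
    intro h0
    rw [h0, zero_smul] at h1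
    exact hx h1
  rw [Pool.Agent.H62.EF.pr_eq_iff hx hy]
  exact ⟨_, h2, h1⟩

private theorem it_co {η : Vd (k + 1) → EN N} {z : Vd (k + 1)} (hη : AnalyticAt ℂ η z) (l : Fin (N + 1)) : AnalyticAt ℂ (fun z => η z l) z :=
  ((EuclideanSpace.proj (𝕜 := ℂ) l : EN N →L[ℂ] ℂ).analyticAt _).comp hη

/-- equality of the minors where `φ = ψ` -/
private theorem it_minor {X : Set (EN N)} (hX : IsCone X) {x y : EN N} (hx : x ∈ X) (hy : y ∈ X) (h : pr x = pr y) (i j : Fin (N + 1)) : x i * y j - x j * y i = 0 := by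
  obtain ⟨c, -, hc⟩ := (Pool.Agent.H62.EF.pr_eq_iff (it_ne hX hx) (it_ne hX hy)).1 h
  rw [hc]
  show c * y i * y j - c * y j * y i = 0
  ring

theorem hol_ident {X : Set (EN N)} {Λ : AddSubgroup (Vd (k + 1))} {u : EN N → Vd (k + 1)} {D : Set (Vd (k + 1))} (hX : IsCone X) (hD : IsClosed D)
    (hth : ∀ y : Vd (k + 1), ∃ h : Vd (k + 1) → ℂ, AnalyticAt ℂ h y ∧ (∀ᶠ z in 𝓝 y, z ∈ D → h z = 0) ∧ ¬ ∀ᶠ z in 𝓝 y, h z = 0) {φ ψ : Vd (k + 1) → MN N}
    (hφ : Hol X Λ u D φ) (hψ : Hol X Λ u D ψ) {y₀ : Vd (k + 1)} (hy₀ : y₀ ∉ D) (h : ∀ᶠ y in 𝓝 y₀, φ y = ψ y) : ∀ y ∉ D, φ y = ψ y := by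
  have hcon : IsPreconnected (Dᶜ : Set (Vd (k + 1))) := compl_conn hD hth
  set U : Set (Vd (k + 1)) := {z | ∀ᶠ w in 𝓝 z, φ w = ψ w} with hU
  have hUo : IsOpen U := by
    rw [isOpen_iff_mem_nhds]
    intro z hz
    exact hz.eventually_nhds
  have hsub : (Dᶜ : Set (Vd (k + 1))) ⊆ U := by
    refine hcon.subset_of_closure_inter_subset hUo ⟨y₀, hy₀, h⟩ ?_
    rintro y ⟨hyc, hyD⟩
    obtain ⟨F, hF, hF'⟩ := hφ y hyD
    obtain ⟨G, hG, hG'⟩ := hψ y hyD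
    have h1 := hF.eventually_analyticAt.and (hG.eventually_analyticAt.and (hF'.and hG'))
    obtain ⟨r, hr, hb⟩ := Metric.eventually_nhds_iff_ball.1 h1
    obtain ⟨w, hwb, hwU⟩ := _root_.mem_closure_iff.1 hyc (ball y r) isOpen_ball (mem_ball_self hr)
    have h2 : ∀ i j : Fin (N + 1), ∀ z ∈ ball y r, F z i * G z j = F z j * G z i := by
      intro i j z hz
      have h3 : AnalyticOnNhd ℂ (fun z => F z i * G z j - F z j * G z i) (ball y r) := fun v hv => by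
        have h4 := hb v hv
        exact ((it_co h4.1 i).mul (it_co h4.2.1 j)).sub ((it_co h4.1 j).mul (it_co h4.2.1 i))
      have h4 : ∀ᶠ v in 𝓝 w, F v i * G v j - F v j * G v i = 0 := by
        filter_upwards [hwU, isOpen_ball.mem_nhds hwb] with v hv hvb
        obtain ⟨-, -, ⟨h5, h6, -⟩, h8, h9, -⟩ := hb v hvb
        exact it_minor hX h5 h8 (by rw [← h6, ← h9, hv]) i j
      exact sub_eq_zero.1 (h3.eqOn_zero_of_preconnected_of_eventuallyEq_zero (convex_ball y r).isPreconnected hwb h4 hz)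
    show ∀ᶠ w in 𝓝 y, φ w = ψ w
    filter_upwards [isOpen_ball.mem_nhds (mem_ball_self hr : y ∈ ball y r)] with z hz
    obtain ⟨-, -, ⟨h5, h6, -⟩, h8, h9, -⟩ := hb z hz
    rw [h6, h9]
    exact it_pr_eq (it_ne hX h5) (it_ne hX h8) fun i j => h2 i j z hz
  intro z hz
  exact (hsub hz : z ∈ U).self_of_nhds

private theorem it_acc {S : Set ℂ} (hS : ¬ S.Countable) : ∃ x ∈ S, ∃ᶠ z in 𝓝[≠] x, z ∈ S := by
  by_contra hcon
  push Not at hcon
  have hd : DiscreteTopology S := by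
    rw [discreteTopology_subtype_iff]
    intro x hx
    have h1 := hcon x hx
    have h2 : Sᶜ ∈ 𝓝[≠] x := h1
    rwa [Filter.mem_iff_inf_principal_compl, compl_compl] at h2
  apply hS
  have : Countable S := (TopologicalSpace.separableSpace_iff_countable (α := S)).1 inferInstance
  exact Set.countable_coe_iff.1 this

theorem hol_ident_lines {X : Set (EN N)} {Λ : AddSubgroup (Vd (1 + 1))} {u : EN N → Vd (1 + 1)} {D : Set (Vd (1 + 1))} (hX : IsCone X) (hD : IsClosed D)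
    (hth : ∀ y : Vd (1 + 1), ∃ h : Vd (1 + 1) → ℂ, AnalyticAt ℂ h y ∧ (∀ᶠ z in 𝓝 y, z ∈ D → h z = 0) ∧ ¬ ∀ᶠ z in 𝓝 y, h z = 0) {φ ψ : Vd (1 + 1) → MN N}
    (hφ : Hol X Λ u D φ) (hψ : Hol X Λ u D ψ) {τ e : Vd (1 + 1)} (L : Vd (1 + 1) ≃L[ℂ] ℂ × ℂ) (hL : ∀ y, y = (L y).1 • τ + (L y).2 • e)
    (hiso : ∀ y : Vd (1 + 1), ∀ᶠ z in 𝓝[≠] (0 : ℂ), y + z • e ∉ D) {T : Set ℂ} (hT : ¬ T.Countable)
    (h : ∀ w ∈ T, ∀ z : ℂ, w • τ + z • e ∉ D → φ (w • τ + z • e) = ψ (w • τ + z • e)) : ∀ y ∉ D, φ y = ψ y := by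
  obtain ⟨w₁, hw₁, hacc⟩ := it_acc hT
  obtain ⟨z₁, hz₁⟩ : ∃ z : ℂ, w₁ • τ + z • e ∉ D := (hiso (w₁ • τ)).exists
  set M : ℂ × ℂ → Vd (1 + 1) := fun p => p.1 • τ + p.2 • e with hM
  have hML : ∀ y, M (L y) = y := fun y => (hL y).symm
  have hLM : ∀ p, L (M p) = p := by
    intro p
    obtain ⟨y, rfl⟩ := L.surjective p
    rw [hML]
  have hMa : ∀ p, AnalyticAt ℂ M p := fun p => (analyticAt_fst.smul analyticAt_const).add (analyticAt_snd.smul analyticAt_const)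
  set y₁ : Vd (1 + 1) := M (w₁, z₁) with hy₁
  have hy₁D : y₁ ∉ D := hz₁
  obtain ⟨F, hF, hF'⟩ := hφ y₁ hy₁D
  obtain ⟨G, hG, hG'⟩ := hψ y₁ hy₁D
  have h1 := hF.eventually_analyticAt.and (hG.eventually_analyticAt.and (hF'.and (hG'.and (hD.isOpen_compl.mem_nhds hy₁D))))
  have h2 : ∀ᶠ p in 𝓝 (w₁, z₁), AnalyticAt ℂ F (M p) ∧ AnalyticAt ℂ G (M p) ∧ (F (M p) ∈ X ∧ φ (M p) = pr (F (M p)) ∧ u (F (M p)) - M p ∈ Λ) ∧
      (G (M p) ∈ X ∧ ψ (M p) = pr (G (M p)) ∧ u (G (M p)) - M p ∈ Λ) ∧ M p ∈ Dᶜ := (hMa (w₁, z₁)).continuousAt.eventually h1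
  obtain ⟨r, hr, hb⟩ := Metric.eventually_nhds_iff_ball.1 h2
  have hpb : ∀ {w z : ℂ}, w ∈ ball w₁ r → z ∈ ball z₁ r → (w, z) ∈ ball (w₁, z₁) r := by
    intro w z hw hz
    rw [← ball_prod_same]
    exact ⟨hw, hz⟩
  have h3 : ∀ i j : Fin (N + 1), ∀ w ∈ ball w₁ r, ∀ z ∈ ball z₁ r, F (M (w, z)) i * G (M (w, z)) j - F (M (w, z)) j * G (M (w, z)) i = 0 := by
    intro i j w hw z hz
    have hl : ∀ v : ℂ, AnalyticAt ℂ (fun v : ℂ => M (v, z)) v := fun v => by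
      show AnalyticAt ℂ (fun v : ℂ => v • τ + z • e) v
      exact (analyticAt_id.smul analyticAt_const).add analyticAt_const
    have h4 : AnalyticOnNhd ℂ (fun v : ℂ => F (M (v, z)) i * G (M (v, z)) j - F (M (v, z)) j * G (M (v, z)) i) (ball w₁ r) := fun v hv => by
      have h5 := hb (v, z) (hpb hv hz)
      have hFa : AnalyticAt ℂ (fun v : ℂ => F (M (v, z))) v := AnalyticAt.comp (g := F) (f := fun v : ℂ => M (v, z)) h5.1 (hl v)
      have hGa : AnalyticAt ℂ (fun v : ℂ => G (M (v, z))) v := AnalyticAt.comp (g := G) (f := fun v : ℂ => M (v, z)) h5.2.1 (hl v)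
      have hco : ∀ {η : ℂ → EN N}, AnalyticAt ℂ η v → ∀ l : Fin (N + 1), AnalyticAt ℂ (fun z => η z l) v :=
        fun hη l => ((EuclideanSpace.proj (𝕜 := ℂ) l : EN N →L[ℂ] ℂ).analyticAt _).comp hη
      exact ((hco hFa i).mul (hco hGa j)).sub ((hco hFa j).mul (hco hGa i))
    have h6 : ∃ᶠ v in 𝓝[≠] w₁, F (M (v, z)) i * G (M (v, z)) j - F (M (v, z)) j * G (M (v, z)) i = 0 := by
      have h7 : ∀ᶠ v in 𝓝[≠] w₁, v ∈ ball w₁ r := mem_nhdsWithin_of_mem_nhds (isOpen_ball.mem_nhds (mem_ball_self hr))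
      refine (hacc.and_eventually h7).mono ?_
      rintro v ⟨hvT, hvb⟩
      obtain ⟨-, -, ⟨h5, h8, -⟩, ⟨h9, h10, -⟩, h11⟩ := hb (v, z) (hpb hvb hz)
      exact it_minor hX h5 h9 (by rw [← h8, ← h10]; exact h v hvT z h11) i j
    exact h4.eqOn_zero_of_preconnected_of_frequently_eq_zero (convex_ball w₁ r).isPreconnected (mem_ball_self hr) h6 hw
  refine hol_ident hX hD hth hφ hψ hy₁D ?_
  have h4 : ∀ᶠ y in 𝓝 y₁, L y ∈ ball (w₁, z₁) r := by
    refine L.continuous.continuousAt.eventually_mem (isOpen_ball.mem_nhds ?_)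
    rw [hy₁, hLM]
    exact mem_ball_self hr
  filter_upwards [h4] with y hy
  have h5 := hb _ hy
  rw [hML] at h5
  obtain ⟨-, -, ⟨h5, h8, -⟩, ⟨h9, h10, -⟩, -⟩ := h5
  rw [h8, h10]
  have h12 : (L y).1 ∈ ball w₁ r ∧ (L y).2 ∈ ball z₁ r := by
    have h13 := hy
    rw [← ball_prod_same] at h13
    exact h13
  refine it_pr_eq (it_ne hX h5) (it_ne hX h9) fun i j => ?_
  have h13 := h3 i j (L y).1 h12.1 (L y).2 h12.2
  have h14 : M ((L y).1, (L y).2) = y := hML y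
  rw [h14] at h13
  exact sub_eq_zero.1 h13

end Pool.Agent.G3.E
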