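import Pool.Agent.G3.E.Line
import Pool.Agent.G3.E.Gen
import Pool.Agent.G3.E.Idt

/-!
# G3 E Chg: change of the direction

`chg`: for all but countably many `w` the section `φ ∈ S` is honest on the line `w • τ + ℂ a'` (`GD.mg`, `gen_lines`, `line_of_lifts`), so it is equal to a member of `S'` on this line off `D` (`GD.ex`).  `S'` is finite, so one
member agrees with `φ` for uncountably many `w`: `hol_ident_lines`.
-/

set_option autoImplicit false

open Topology Filter Metric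

namespace Pool.Agent.G3.E

open Pool.Agent.H36.BP (EN fs wd)
open Pool.Agent.H14.PP (IsCone CurveAt Tan)
open Pool.Agent.H62.EF (MN pr)
open Pool.Agent.AD (Vd Chart Charts IsGerm)
open Pool.Agent.TG
open Pool.Agent.G3.A
open Pool.Agent.G3.C (Gc)

variable {N k : ℕ}

theorem chg {d : ℕ} {X : Set (EN N)} {Λ : AddSubgroup (Vd (1 + 1))} {u : EN N → Vd (1 + 1)} {D : Set (Vd (1 + 1))} (hX : IsCone X) (hch : Charts d X) (ht : TMap X Λ u) (hl : Lat Λ)
    (hD : IsClosed D) (hth : ∀ y : Vd (1 + 1), ∃ h : Vd (1 + 1) → ℂ, AnalyticAt ℂ h y ∧ (∀ᶠ z in 𝓝 y, z ∈ D → h z = 0) ∧ ¬ ∀ᶠ z in 𝓝 y, h z = 0)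
    (hiso : ∀ a : Vd (1 + 1), a ≠ 0 → ∀ y : Vd (1 + 1), ∀ᶠ z in 𝓝[≠] (0 : ℂ), y + z • a ∉ D) {a a' : Vd (1 + 1)} (ha : a ≠ 0) (ha' : a' ≠ 0) {S S' : Set (Vd (1 + 1) → MN N)}
    (h : GD X Λ u D a S) (h' : GD X Λ u D a' S') {φ : Vd (1 + 1) → MN N} (hφ : φ ∈ S) : ∃ ψ ∈ S', ∀ y ∉ D, φ y = ψ y := by
  obtain ⟨τ, L, hL⟩ := exists_basis ha'
  have hm : ∀ y, MG D φ a y := fun y => h.mg hX hD ha (hiso a ha) hφ y
  have hc := gen_lines hm L hL
  set C : Set ℂ := {w : ℂ | ¬ ∀ z : ℂ, MG D φ a' (w • τ + z • a')} with hC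
  set T : (Vd (1 + 1) → MN N) → Set ℂ :=
    fun ψ => {w : ℂ | ∀ z : ℂ, w • τ + z • a' ∉ D → φ (w • τ + z • a') = ψ (w • τ + z • a')} with hT
  have hmain : ∀ w ∉ C, ∃ ψ ∈ S', w ∈ T ψ := by
    intro w hw
    have hw' : ∀ z : ℂ, MG D φ a' (w • τ + z • a') := by
      by_contra hcon
      exact hw hcon
    have hiso' : ∀ z₀ : ℂ, ∀ᶠ z in 𝓝[≠] z₀, w • τ + z • a' ∉ D := by
      intro z₀
      have h1 := hiso a' ha' (w • τ + z₀ • a')
      rw [eventually_nhdsWithin_iff] at h1 ⊢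
      have h2 : Tendsto (fun z : ℂ => z - z₀) (𝓝 z₀) (𝓝 0) := by
        have : ContinuousAt (fun z : ℂ => z - z₀) z₀ := by fun_prop
        simpa [ContinuousAt] using this
      filter_upwards [h2.eventually h1] with z hz hne
      have h3 : z - z₀ ∈ ({0}ᶜ : Set ℂ) := by
        simp only [Set.mem_compl_iff, Set.mem_singleton_iff] at hne ⊢
        exact fun h0 => hne (sub_eq_zero.mp h0)
      have h4 := hz h3
      have h5 : w • τ + z₀ • a' + (z - z₀) • a' = w • τ + z • a' := by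
        rw [sub_smul]; abel
      rwa [h5] at h4
    obtain ⟨f, hf, hfe⟩ := line_of_lifts hX hch ht hl hD (h.hol φ hφ) (y := w • τ) (e := a') hiso' hw'
    obtain ⟨ψ, hψ, hψe⟩ := h'.ex (w • τ) f hf
    exact ⟨ψ, hψ, fun z hz => (hfe z hz).symm.trans (hψe z).symm⟩
  have huc : ∃ ψ ∈ S', ¬ (T ψ).Countable := by
    by_contra hcon
    push Not at hcon
    have h1 : (C ∪ ⋃ ψ ∈ S', T ψ).Countable :=
      hc.union (h'.fin.countable.biUnion fun ψ hψ => hcon ψ hψ)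
    have h2 : (C ∪ ⋃ ψ ∈ S', T ψ) = Set.univ := by
      refine Set.eq_univ_of_forall fun w => ?_
      by_cases hw : w ∈ C
      · exact Or.inl hw
      · obtain ⟨ψ, hψ, hwψ⟩ := hmain w hw
        exact Or.inr (Set.mem_biUnion hψ hwψ)
    rw [h2] at h1
    exact not_countable_complex h1
  obtain ⟨ψ, hψ, hψc⟩ := huc
  exact ⟨ψ, hψ, hol_ident_lines hX hD hth (h.hol φ hφ) (h'.hol ψ hψ) L hL (hiso a' ha') hψc fun w hw => hw⟩

end Pool.Agent.G3.E
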