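import Pool.Agent.G3.E.Chg

/-!
# G3 E CsfM: the finite set of the global sections

`S = S_a₀` for a direction `a₀`.  `mer` in the direction `a`: `a = c • a'`, `‖a'‖ = 1`; `chg` to `S_a'`, `GD.mg`.  `cls`: the curve `z ↦ pr (G z)` over `b + ℂ a`, reparametrised (`z / c`) is in `Hc a' b`; `GD.ex`; `chg` back to `S_a₀`.
-/

set_option autoImplicit false

open Topology Filter Metric

namespace Pool.Agent.G3.E

open Pool.Agent.H36.BP (EN fs wd)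
open Pool.Agent.H14.PP (IsCone CurveAt Tan)
open Pool.Agent.H62.EF (MN pr)
open Pool.Agent.AD (Vd Chart Charts IsGerm)
open Pool.Agent.TG
open Pool.Agent.G3.A
open Pool.Agent.G3.C (Gc)
open Pool.Agent.G3 (Csf)

variable {N k : ℕ}

theorem csf_of_gd {d : ℕ} {X : Set (EN N)} {Λ : AddSubgroup (Vd (1 + 1))} {u : EN N → Vd (1 + 1)} {D : Set (Vd (1 + 1))} (hX : IsCone X) (hch : Charts d X) (ht : TMap X Λ u) (hl : Lat Λ)
    (hD : IsClosed D) (hth : ∀ y : Vd (1 + 1), ∃ h : Vd (1 + 1) → ℂ, AnalyticAt ℂ h y ∧ (∀ᶠ z in 𝓝 y, z ∈ D → h z = 0) ∧ ¬ ∀ᶠ z in 𝓝 y, h z = 0)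
    (hiso : ∀ a : Vd (1 + 1), a ≠ 0 → ∀ y : Vd (1 + 1), ∀ᶠ z in 𝓝[≠] (0 : ℂ), y + z • a ∉ D)
    (h : ∀ a : Vd (1 + 1), ‖a‖ = 1 → ∃ S : Set (Vd (1 + 1) → MN N), GD X Λ u D a S) : ∃ S, Csf X Λ u D S := by
  have hn0 : ‖(fun _ : Fin (1 + 1) => (1 : ℂ))‖ = 1 := by
    rw [pi_norm_const]; exact norm_one
  have hne : ∀ a : Vd (1 + 1), ‖a‖ = 1 → a ≠ 0 := by
    rintro a ha rfl
    rw [norm_zero] at ha
    exact zero_ne_one ha
  have hcn : ∀ a : Vd (1 + 1), a ≠ 0 → (‖a‖ : ℂ) ≠ 0 := fun a ha => by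
    exact_mod_cast norm_ne_zero_iff.2 ha
  have hn1 : ∀ a : Vd (1 + 1), a ≠ 0 → ‖((‖a‖ : ℂ))⁻¹ • a‖ = 1 := fun a ha => by
    rw [norm_smul, norm_inv, Complex.norm_real, norm_norm]
    exact inv_mul_cancel₀ (norm_ne_zero_iff.2 ha)
  obtain ⟨S, hS⟩ := h _ hn0
  refine ⟨S, ⟨hS.fin, hS.hol, ?_, ?_, ?_⟩⟩
  · intro Φ hΦ a ha y
    obtain ⟨S', hS'⟩ := h _ (hn1 a ha)
    have ha' := hne _ (hn1 a ha)
    obtain ⟨ψ, hψ, heq⟩ := chg hX hch ht hl hD hth hiso (hne _ hn0) ha' hS hS' hΦ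
    obtain ⟨G, hG, hfr, hev⟩ := hS'.mg hX hD ha' (hiso _ ha') hψ y
    refine ⟨G, hG, ?_, ?_⟩
    · have ht0 : Tendsto (fun w : ℂ => w * ((‖a‖ : ℂ))⁻¹) (𝓝 0) (𝓝 0) := by
        have h1 : Continuous (fun w : ℂ => w * ((‖a‖ : ℂ))⁻¹) := continuous_id.mul continuous_const
        have h2 := h1.tendsto 0
        rwa [zero_mul] at h2
      refine ht0.frequently (hfr.mono fun w hw => ?_)
      rwa [smul_smul] at hw
    · filter_upwards [hev] with z hz hzD hGz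
      rw [heq z hzD]
      exact hz hzD hGz
  · intro Φ hΦ l hl'
    exact ⟨_, hS.tr Φ hΦ l hl', fun y _ => rfl⟩
  · intro a ha b G hG
    obtain ⟨S', hS'⟩ := h _ (hn1 a ha)
    have ha' := hne _ (hn1 a ha)
    have hc := hcn a ha
    have hmem : (fun z : ℂ => pr (G (((‖a‖ : ℂ))⁻¹ * z))) ∈ Hc X Λ u (((‖a‖ : ℂ))⁻¹ • a) b := by
      refine ⟨fun z => G (((‖a‖ : ℂ))⁻¹ * z), ⟨?_, fun z => ?_, fun z => ?_⟩, rfl⟩
      · have h1 : Differentiable ℂ G := differentiableOn_univ.1 hG.F_diff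
        exact h1.comp ((differentiable_const _).mul differentiable_id)
      · exact hG.mem _ (Set.mem_univ _)
      · have h1 := hG.lift _ (Set.mem_univ (((‖a‖ : ℂ))⁻¹ * z))
        have h2 : b + z • (((‖a‖ : ℂ))⁻¹ • a) = ((((‖a‖ : ℂ))⁻¹ * z) • a + b : Vd (1 + 1)) := by
          rw [smul_smul, mul_comm z, add_comm b]
        rw [h2]
        exact h1
    obtain ⟨φ, hφ, hφe⟩ := hS'.ex b _ hmem
    obtain ⟨ψ, hψ, heq⟩ := chg hX hch ht hl hD hth hiso ha' (hne _ hn0) hS' hS hφ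
    refine ⟨ψ, hψ, fun z hz => ?_⟩
    have h1 := hφe ((‖a‖ : ℂ) * z)
    have h2 : b + ((‖a‖ : ℂ) * z) • (((‖a‖ : ℂ))⁻¹ • a) = (z • a + b : Vd (1 + 1)) := by
      rw [smul_smul, mul_comm (‖a‖ : ℂ) z, mul_assoc, mul_inv_cancel₀ hc, mul_one, add_comm b]
    have h3 : ((‖a‖ : ℂ))⁻¹ * ((‖a‖ : ℂ) * z) = z := by
      rw [← mul_assoc, inv_mul_cancel₀ hc, one_mul]
    rw [h2] at h1
    simp only [h3] at h1
    rw [← heq _ hz, h1]

end Pool.Agent.G3.E
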