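import Pool.Agent.G3.A.Defs
import Pool.Agent.G3.Z.CDefs
import Pool.Agent.G3.C.TDefs

/-!
# G3 E Defs: the global sections

`a` is a direction (sup norm `1`).

* `Hol X Λ u D φ`: `φ` has holomorphic lifts outside `D`.
* `GD X Λ u D a S`: `S` is the finite set of the global sheets for the direction `a`: holomorphic outside `D`, honest on all lines of direction `a`, and every entire curve over a line of
  direction `a` is one of them.
* `MG D φ a y`: near `y` there is a holomorphic lift which is not identically `0` on the line through `y` in the direction `a`.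
* `BC X Λ u a ν b`: the conclusion of block (C) at `b`: all curves over `b + ℂ a` extend to families over `b + ζ ν + ℂ a`, `|Im ζ| < ε`.
-/

set_option autoImplicit false

open Topology Filter Metric

namespace Pool.Agent.G3.E

open Pool.Agent.H36.BP (EN fs wd)
open Pool.Agent.H14.PP (IsCone CurveAt Tan)
open Pool.Agent.H62.EF (MN pr)
open Pool.Agent.AD (Vd Chart Charts IsGerm)
open Pool.Agent.TG
open Pool.Agent.G3 (Csf)
open Pool.Agent.G3.A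
open Pool.Agent.G3.C (Gc)

variable {N k : ℕ}

/-- holomorphic outside `D` -/
def Hol (X : Set (EN N)) (Λ : AddSubgroup (Vd (k + 1))) (u : EN N → Vd (k + 1)) (D : Set (Vd (k + 1))) (φ : Vd (k + 1) → MN N) : Prop :=
  ∀ y ∉ D, ∃ F : Vd (k + 1) → EN N, AnalyticAt ℂ F y ∧ ∀ᶠ z in 𝓝 y, F z ∈ X ∧ φ z = pr (F z) ∧ u (F z) - z ∈ Λ

/-- the global sheets for the direction `a` -/
structure GD (X : Set (EN N)) (Λ : AddSubgroup (Vd (k + 1))) (u : EN N → Vd (k + 1)) (D : Set (Vd (k + 1))) (a : Vd (k + 1)) (S : Set (Vd (k + 1) → MN N)) : Prop where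
  fin : S.Finite
  hol : ∀ φ ∈ S, Hol X Λ u D φ
  line : ∀ φ ∈ S, ∀ y, (fun z : ℂ => φ (y + z • a)) ∈ Hc X Λ u a y
  ex : ∀ y, ∀ f ∈ Hc X Λ u a y, ∃ φ ∈ S, ∀ z : ℂ, φ (y + z • a) = f z
  tr : ∀ φ ∈ S, ∀ l ∈ Λ, (fun y => φ (y + l)) ∈ S

/-- a lift near `y` which is not identically `0` on the line through `y` in the direction `a` -/
def MG (D : Set (Vd (k + 1))) (φ : Vd (k + 1) → MN N) (a y : Vd (k + 1)) : Prop :=
  ∃ G : Vd (k + 1) → EN N, AnalyticAt ℂ G y ∧ (∃ᶠ w in 𝓝 (0 : ℂ), G (y + w • a) ≠ 0) ∧ ∀ᶠ z in 𝓝 y, z ∉ D → G z ≠ 0 → φ z = pr (G z)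

/-- the conclusion of block (C) at `b` -/
def BC (X : Set (EN N)) (Λ : AddSubgroup (Vd (k + 1))) (u : EN N → Vd (k + 1)) (a ν b : Vd (k + 1)) : Prop :=
  ∃ ε : ℝ, 0 < ε ∧ ∀ f ∈ Hc X Λ u a b, ∃ Ψ : ℂ → ℂ → MN N, (∀ z, Ψ 0 z = f z) ∧ (∀ ζ : ℂ, |ζ.im| < ε → Ψ ζ ∈ Hc X Λ u a (b + ζ • ν)) ∧
    ∀ ζ z : ℂ, |ζ.im| < ε → ∃ G : ℂ × ℂ → EN N, AnalyticAt ℂ G (ζ, z) ∧ (¬ ∀ᶠ w in 𝓝 z, G (ζ, w) = 0) ∧
      ∀ᶠ p in 𝓝 (ζ, z), G p ≠ 0 → Ψ p.1 p.2 = pr (G p)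

end Pool.Agent.G3.E
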