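import Pool.Agent.G3.E.Defs
import Pool.Agent.G3.A.Shts

/-!
# G3 E GDx: the global sheets from the sheets over `⊤`

`Tb b ⊤ = univ`; `sht_finite` at `b = 0`; `ex`: `exists_sht` at `b = y`.
-/

set_option autoImplicit false

open Topology Filter Metric

namespace Pool.Agent.G3.E

open Pool.Agent.H36.BP (EN fs wd)
open Pool.Agent.H14.PP (IsCone CurveAt Tan)
open Pool.Agent.H62.EF (MN pr)
open Pool.Agent.AD (Vd Chart Charts IsGerm)
open Pool.Agent.TG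
open Pool.Agent.G3.A
open Pool.Agent.G3.C (Gc)

variable {N k : ℕ} {X : Set (EN N)} {Λ : AddSubgroup (Vd (k + 1))} {u : EN N → Vd (k + 1)} {D B Bad : Set (Vd (k + 1))} {a : Vd (k + 1)}

variable {J : ℕ} {α : Fin J → VForm X Λ u} {c₀ C₀ ρ δ : ℝ}

theorem gd_of_sht (S : DA X Λ u D B Bad a α c₀ C₀ ρ δ) (hCE : ∀ b, CE X Λ u a b ⊤) (hh : ∀ φ : Vd (k + 1) → MN N, Sht X Λ u D a (Tb 0 ⊤) φ → Hol X Λ u D φ) :
    ∃ SS : Set (Vd (k + 1) → MN N), GD X Λ u D a SS := by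
  have hT : ∀ b y : Vd (k + 1), y ∈ Tb b (⊤ : Submodule ℝ (Vd (k + 1))) := fun b y => (Submodule.mem_top : y - b ∈ (⊤ : Submodule ℝ (Vd (k + 1))))
  obtain ⟨SS, hfin, hsht, hall, -⟩ := sht_finite S (hCE 0)
  refine ⟨SS, hfin, fun φ hφ => hh φ (hsht φ hφ), fun φ hφ y => (hsht φ hφ).line y (hT 0 y), fun y f hf => ?_,
    fun φ hφ l hl => ?_⟩
  · obtain ⟨ψ, hψ, hψf⟩ := exists_sht S (hCE y) hf
    have h1 : Sht X Λ u D a (Tb 0 ⊤) ψ := by
      have e : Tb (0 : Vd (k + 1)) (⊤ : Submodule ℝ (Vd (k + 1))) = Tb y ⊤ := by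
        ext z
        exact ⟨fun _ => hT y z, fun _ => hT 0 z⟩
      rw [e]
      exact hψ
    obtain ⟨φ, hφ, he⟩ := hall ψ h1
    exact ⟨φ, hφ, fun z => by rw [← he _ (hT 0 _), hψf z]⟩
  · obtain ⟨φ', hφ', he⟩ := hall _ (sht_add (hsht φ hφ) S.lg hl Submodule.mem_top)
    have e : (fun y => φ (y + l)) = φ' := funext fun y => he y (hT 0 y)
    rw [e]
    exact hφ'

end Pool.Agent.G3.E
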