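import Pool.Agent.G3.E.HolL
import Pool.Agent.G3.E.Cnt
import Pool.Agent.G3.A.Shts
import Pool.Agent.G3.A.P1

/-!
# G3 E Hol3: the global sheets are holomorphic outside `D` (dimension 3)

`y₀ ∉ D`, `Ψ` the family from `BC` at `y₀` for `f z = φ (y₀ + z • a)`.  `bc_agree`: for `ζ` near `0`: `Ψ ζ z = φ (y₀ + ζ • ν + z • a)` for all `z`.  Otherwise there is an ultrafilter `𝒰 ≤ 𝓝 0` on `ℂ` such that they are different for
`𝒰`-most `ζ`; `Lm` of `φ (y₀ + ζ • ν + · • a)` to `f` by `sht_lm`; `hc_closed` gives `g ∈ Hc y₀` with `Lm` of `Ψ ζ` to `g`, and `g = f` (`hc_eq`: at the points `z` off the zeros of `G (0, ·)` and off `D` the family `Ψ` is continuous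
at `(0, z)`); `lm_sep`: contradiction.  `hol3`: `hol_of_thin`, the lift `G` of `BC` at `(0, 0)` composed with the coordinates `(ζ, z)` of `y = y₀ + ζ • ν + z • a`.
-/

set_option autoImplicit false

open Topology Filter Metric

namespace Pool.Agent.G3.E

open Pool.Agent.H36.BP (EN fs wd)
open Pool.Agent.H14.PP (IsCone CurveAt Tan)
open Pool.Agent.H62.EF (MN pr)
open Pool.Agent.AD (Vd Chart Charts IsGerm)
open Pool.Agent.TG
open Pool.Agent.G3.A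
open Pool.Agent.G3.C (Gc)

variable {N : ℕ} {X : Set (EN N)} {Λ : AddSubgroup (Vd (1 + 1))} {u : EN N → Vd (1 + 1)} {D B Bad : Set (Vd (1 + 1))} {a ν : Vd (1 + 1)}

variable {J : ℕ} {α : Fin J → VForm X Λ u} {c₀ C₀ ρ δ : ℝ}

theorem bc_agree (S : DA X Λ u D B Bad a α c₀ C₀ ρ δ) (hCE : ∀ b, CE X Λ u a b ⊤) {φ : Vd (1 + 1) → MN N} (hφ : Sht X Λ u D a (Tb 0 ⊤) φ) {y₀ : Vd (1 + 1)} {Ψ : ℂ → ℂ → MN N} {ε : ℝ} (hε : 0 < ε)
    (h0 : ∀ z, Ψ 0 z = φ (y₀ + z • a)) (h1 : ∀ ζ : ℂ, |ζ.im| < ε → Ψ ζ ∈ Hc X Λ u a (y₀ + ζ • ν))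
    (h2 : ∀ z : ℂ, ∃ G : ℂ × ℂ → EN N, AnalyticAt ℂ G (0, z) ∧ (¬ ∀ᶠ w in 𝓝 z, G (0, w) = 0) ∧ ∀ᶠ p in 𝓝 ((0 : ℂ), z), G p ≠ 0 → Ψ p.1 p.2 = pr (G p)) :
    ∀ᶠ ζ in 𝓝 (0 : ℂ), ∀ z : ℂ, Ψ ζ z = φ (y₀ + ζ • ν + z • a) := by
  classical
  have hX := S.geo.cone
  have hmem : ∀ y : Vd (1 + 1), y ∈ Tb (0 : Vd (1 + 1)) ⊤ := fun y => (Submodule.mem_top : y - 0 ∈ (⊤ : Submodule ℝ (Vd (1 + 1))))
  have him : ∀ᶠ ζ in 𝓝 (0 : ℂ), |ζ.im| < ε := by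
    have hc : Continuous fun ζ : ℂ => |ζ.im| := Complex.continuous_im.abs
    exact hc.continuousAt.eventually_lt continuousAt_const (by simpa using hε)
  have hyc : Tendsto (fun ζ : ℂ => y₀ + ζ • ν) (𝓝 0) (𝓝 y₀) := by
    have h3 : ContinuousAt (fun ζ : ℂ => y₀ + ζ • ν) 0 := by fun_prop
    have h4 := h3.tendsto
    rwa [zero_smul, add_zero] at h4
  show {ζ : ℂ | ∀ z : ℂ, Ψ ζ z = φ (y₀ + ζ • ν + z • a)} ∈ 𝓝 (0 : ℂ)
  rw [mem_iff_ultrafilter]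
  intro 𝒰 h𝒰
  have hy : Tendsto (fun ζ : ℂ => y₀ + ζ • ν) (𝒰 : Filter ℂ) (𝓝 y₀) := hyc.mono_left h𝒰
  have hf : ∀ᶠ ζ in (𝒰 : Filter ℂ), Ψ ζ ∈ Hc X Λ u a (y₀ + ζ • ν) := (him.filter_mono h𝒰).mono fun ζ hζ => h1 ζ hζ
  have hg : ∀ᶠ ζ in (𝒰 : Filter ℂ), (fun z : ℂ => φ (y₀ + ζ • ν + z • a)) ∈ Hc X Λ u a (y₀ + ζ • ν) :=
    Eventually.of_forall fun ζ => hφ.line _ (hmem _)
  have l2 := sht_lm S (hCE 0) hφ hy (Eventually.of_forall fun ζ => hmem _) (hmem y₀)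
  have hh : (fun z : ℂ => φ (y₀ + z • a)) ∈ Hc X Λ u a y₀ := hφ.line _ (hmem _)
  obtain ⟨g, hgH, l1⟩ := hc_closed S.geo S.lg S.nl hy hf
  have hgh : g = fun z : ℂ => φ (y₀ + z • a) := by
    refine hc_eq hX hgH hh (z₀ := 0) (Filter.Eventually.frequently ?_)
    obtain ⟨G, hGa, hG0, hGe⟩ := h2 0
    have hcont : ContinuousAt (fun w : ℂ => ((0 : ℂ), w)) 0 := by fun_prop
    have hne : ∀ᶠ w in 𝓝[≠] (0 : ℂ), G (0, w) ≠ 0 := by
      have h3 : AnalyticAt ℂ (fun w : ℂ => G (0, w)) 0 := by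
        have h4 : AnalyticAt ℂ (fun w : ℂ => ((0 : ℂ), w)) 0 := analyticAt_const.prod analyticAt_id
        exact AnalyticAt.fun_comp (f := fun w : ℂ => ((0 : ℂ), w)) (g := G) hGa h4
      rcases h3.eventually_eq_zero_or_eventually_ne_zero with h5 | h5
      · exact absurd h5 hG0
      · exact h5
    have hGe' := (hcont.eventually hGe.eventually_nhds).filter_mono (nhdsWithin_le_nhds (s := {(0 : ℂ)}ᶜ))
    have hGa' := (hcont.eventually hGa.eventually_analyticAt).filter_mono (nhdsWithin_le_nhds (s := {(0 : ℂ)}ᶜ))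
    filter_upwards [hne, hGe', hGa', S.lg.iso y₀] with z n1 n2 n3 n4
    have hc : ContinuousAt (fun ζ : ℂ => (ζ, z)) 0 := by fun_prop
    have e1 : ∀ᶠ ζ in 𝓝 (0 : ℂ), Ψ ζ z = pr (G (ζ, z)) := by
      have h5 : ∀ᶠ p in 𝓝 ((0 : ℂ), z), G p ≠ 0 := n3.continuousAt.eventually_ne n1
      exact (hc.eventually (n2.and h5)).mono fun ζ hζ => hζ.1 hζ.2
    have e2 : ContinuousAt (fun ζ : ℂ => pr (G (ζ, z))) 0 := by
      have e3 : ContinuousAt (fun ζ : ℂ => G (ζ, z)) 0 :=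
        ContinuousAt.comp (f := fun ζ : ℂ => (ζ, z)) (g := G) n3.continuousAt hc
      exact ContinuousAt.comp (f := fun ζ : ℂ => G (ζ, z)) (g := pr) (Pool.Agent.H62.EF.continuousAt_pr n1) e3
    have e4 : Ψ 0 z = pr (G (0, z)) := e1.self_of_nhds
    have e5 : Tendsto (fun ζ : ℂ => Ψ ζ z) (𝓝 0) (𝓝 (Ψ 0 z)) := by
      rw [e4]
      exact (tendsto_congr' e1).2 e2.tendsto
    have e6 := l1 z n4 (fun _ => z) tendsto_const_nhds
    have e7 := tendsto_nhds_unique e6 (e5.mono_left h𝒰)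
    rw [e7, h0]
  rw [hgh] at l1
  have hfin := lm_sep S hy (f := Ψ) (g := fun ζ z => φ (y₀ + ζ • ν + z • a)) hf hg hh l1 l2
  exact hfin.mono fun ζ hζ z => congrFun hζ z

theorem hol3 (S : DA X Λ u D B Bad a α c₀ C₀ ρ δ) (hCE : ∀ b, CE X Λ u a b ⊤) (L : Vd (1 + 1) ≃L[ℂ] ℂ × ℂ) (hL : ∀ y, y = (L y).1 • ν + (L y).2 • a) (hBC : ∀ b, BC X Λ u a ν b)
    {φ : Vd (1 + 1) → MN N} (hφ : Sht X Λ u D a (Tb 0 ⊤) φ) : Hol X Λ u D φ := by
  intro y hy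
  have hX := S.geo.cone
  have hmem : ∀ y : Vd (1 + 1), y ∈ Tb (0 : Vd (1 + 1)) ⊤ := fun y => (Submodule.mem_top : y - 0 ∈ (⊤ : Submodule ℝ (Vd (1 + 1))))
  have huniv : Tb (0 : Vd (1 + 1)) ⊤ = Set.univ := Set.eq_univ_of_forall hmem
  have hnD : ∀ᶠ z in 𝓝 y, z ∉ D := S.geo.D_closed.isOpen_compl.mem_nhds hy
  have hc : ∀ᶠ z in 𝓝 y, ContinuousAt φ z := hnD.mono fun z hz => by
    have h3 := hφ.cont z (hmem z) hz
    rwa [huniv, continuousWithinAt_univ] at h3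
  have hf : ∀ᶠ z in 𝓝 y, φ z ∈ Fb X Λ u z := Eventually.of_forall fun z => by
    have h3 := hc_mem (hφ.line z (hmem z)) 0
    simpa using h3
  obtain ⟨ε, hε, hΨ⟩ := hBC y
  obtain ⟨Ψ, h0, h1, h2⟩ := hΨ _ (hφ.line y (hmem y))
  have h00 : |(0 : ℂ).im| < ε := by simpa using hε
  have hag := bc_agree S hCE hφ hε h0 h1 fun z => h2 0 z h00
  obtain ⟨G, hGa, hG0, hGe⟩ := h2 0 0 h00
  have hLs : ∀ p : ℂ × ℂ, L (p.1 • ν + p.2 • a) = p := by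
    intro p
    have h3 := hL (L.symm p)
    rw [L.apply_symm_apply] at h3
    rw [← h3, L.apply_symm_apply]
  have hL0 : ContinuousAt (fun z : Vd (1 + 1) => L (z - y)) y := by fun_prop
  have hLy : L (y - y) = ((0 : ℂ), (0 : ℂ)) := by rw [sub_self, map_zero]; rfl
  have hLt : Tendsto (fun z : Vd (1 + 1) => L (z - y)) (𝓝 y) (𝓝 ((0 : ℂ), (0 : ℂ))) := by
    have h3 := hL0.tendsto
    rwa [hLy] at h3
  refine hol_of_thin hX S.geo.tor hc hf (G := fun z => G (L (z - y))) ?_ ?_ ?_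
  · have h3 : AnalyticAt ℂ (fun z : Vd (1 + 1) => L (z - y)) y :=
      ((L : Vd (1 + 1) →L[ℂ] ℂ × ℂ).analyticAt _).comp (analyticAt_id.sub analyticAt_const)
    exact AnalyticAt.fun_comp (by rw [hLy]; exact hGa) h3
  · intro h3
    apply hG0
    have h4 : Tendsto (fun w : ℂ => y + w • a) (𝓝 0) (𝓝 y) := by
      have h5 : ContinuousAt (fun w : ℂ => y + w • a) 0 := by fun_prop
      have h6 := h5.tendsto
      rwa [zero_smul, add_zero] at h6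
    refine (h4.eventually h3).mono fun w hw => ?_
    have h5 : L (y + w • a - y) = ((0 : ℂ), w) := by
      have h6 := hLs (0, w)
      rw [add_sub_cancel_left]
      simpa using h6
    rwa [h5] at hw
  · have h3 : ∀ᶠ z in 𝓝 y, ∀ w : ℂ, Ψ (L (z - y)).1 w = φ (y + (L (z - y)).1 • ν + w • a) := by
      have h4 : Tendsto (fun z : Vd (1 + 1) => (L (z - y)).1) (𝓝 y) (𝓝 (0 : ℂ)) := (continuous_fst.tendsto _).comp hLt
      exact h4.eventually hag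
    filter_upwards [h3, hLt.eventually hGe] with z h4 h5 h6
    rw [← h5 h6, h4, add_assoc, ← hL (z - y), add_sub_cancel]

end Pool.Agent.G3.E
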