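import Pool.Agent.G3.E.Defs
import Pool.Agent.G3.C.Glue
import Pool.Agent.TG.Rm
import Pool.Agent.TG.SmA

/-!
# G3 E HolL: a continuous section which is holomorphic off a thin set is holomorphic

`F z = nv v (φ z)` with `⟨v, x⟩ ≠ 0`, `φ y = pr x`: continuous near `y`, and `F = G / ⟨v, G⟩` where `G ≠ 0`, so analytic there.  With `h = G · i` for a coordinate `i` which is not identically `0` near `y`: `TG.riemann_ext`
(`F` is bounded near `y`), the extension is equal to `F` near `y` (both continuous, `h ≠ 0` on a dense set).  `F z ∈ X` and over `z`: `mem_of_pr`.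
-/

set_option autoImplicit false

open Topology Filter Metric

namespace Pool.Agent.G3.E

open Pool.Agent.H36.BP (EN fs wd)
open Pool.Agent.H14.PP (IsCone CurveAt Tan)
open Pool.Agent.H62.EF (MN pr)
open Pool.Agent.AD (Vd Chart Charts IsGerm)
open Pool.Agent.TG
open Pool.Agent.G3.A
open Pool.Agent.G3.C (Gc)

variable {N k : ℕ} {X : Set (EN N)} {Λ : AddSubgroup (Vd (k + 1))} {u : EN N → Vd (k + 1)}

theorem hol_of_thin (hX : IsCone X) (ht : TMap X Λ u) {φ : Vd (k + 1) → MN N} {y : Vd (k + 1)} (hc : ∀ᶠ z in 𝓝 y, ContinuousAt φ z) (hf : ∀ᶠ z in 𝓝 y, φ z ∈ Fb X Λ u z)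
    {G : Vd (k + 1) → EN N} (hG : AnalyticAt ℂ G y) (hG0 : ¬ ∀ᶠ z in 𝓝 y, G z = 0) (hGφ : ∀ᶠ z in 𝓝 y, G z ≠ 0 → φ z = pr (G z)) :
    ∃ F : Vd (k + 1) → EN N, AnalyticAt ℂ F y ∧ ∀ᶠ z in 𝓝 y, F z ∈ X ∧ φ z = pr (F z) ∧ u (F z) - z ∈ Λ := by
  obtain ⟨v, hv, hvφ, hvu⟩ := hf.self_of_nhds
  have hv0 : v ≠ 0 := ne_zero hX hv
  have hnd0 : C.nd v (φ y) ≠ 0 := by
    rw [← hvφ, C.nd_pr_ne hv0]
    exact inner_self_ne_zero.2 hv0
  have hnd : ∀ᶠ z in 𝓝 y, C.nd v (φ z) ≠ 0 :=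
    (ContinuousAt.comp (g := C.nd v) (C.nd_cont v).continuousAt hc.self_of_nhds).eventually_ne hnd0
  have hψc : ∀ᶠ z in 𝓝 y, ContinuousAt (fun z => C.nv v (φ z)) z := by
    filter_upwards [hc, hnd] with z h1 h2
    exact ContinuousAt.comp (g := C.nv v) (C.nv_continuousAt h2) h1
  obtain ⟨i, hi⟩ : ∃ i, ¬ ∀ᶠ z in 𝓝 y, G z i = 0 := by
    by_contra hcon
    push Not at hcon
    apply hG0
    filter_upwards [Filter.eventually_all.2 hcon] with z hz
    ext j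
    exact hz j
  have hh : AnalyticAt ℂ (fun z => G z i) y := coord_an hG i
  have hne : ∀ {z : Vd (k + 1)}, G z i ≠ 0 → G z ≠ 0 := fun h h0 => h (by rw [h0]; rfl)
  have hloc : ∀ᶠ z in 𝓝 y, G z i ≠ 0 → AnalyticAt ℂ (fun z => C.nv v (φ z)) z := by
    filter_upwards [hG.eventually_analyticAt, hGφ.eventually_nhds, hnd.eventually_nhds] with z h1 h2 h3 h4
    have h5 : ∀ᶠ w in 𝓝 z, G w ≠ 0 := h1.continuousAt.eventually_ne (hne h4)
    have h6 : ∀ᶠ w in 𝓝 z, (inner ℂ v (G w) : ℂ) ≠ 0 := by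
      filter_upwards [h2, h3, h5] with w h7 h8 h9
      rw [h7 h9, C.nd_pr_ne h9] at h8
      exact h8
    have h7 : AnalyticAt ℂ (fun w => (inner ℂ v (G w) : ℂ)⁻¹ • G w) z := by
      have h8 : AnalyticAt ℂ (fun w => (inner ℂ v (G w) : ℂ)) z := ((innerSL ℂ v).analyticAt _).comp h1
      exact (h8.inv h6.self_of_nhds).smul h1
    refine h7.congr ?_
    filter_upwards [h2, h5, h6] with w h8 h9 h10
    rw [h8 h9, C.nv_pr h10]
  have hM : ∀ᶠ z in 𝓝 y, G z i ≠ 0 → ‖C.nv v (φ z)‖ ≤ ‖C.nv v (φ y)‖ + 1 := by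
    have h1 : ContinuousAt (fun z => ‖C.nv v (φ z)‖) y := hψc.self_of_nhds.norm
    filter_upwards [h1.eventually_lt continuousAt_const (lt_add_one _)] with z hz _
    exact hz.le
  obtain ⟨F, hF, hFe⟩ := riemann_ext (f := fun z => C.nv v (φ z)) hh hi hloc hM
  have hfr : ∀ᶠ z in 𝓝 y, ∃ᶠ w in 𝓝 z, G w i ≠ 0 := by
    obtain ⟨r, hr, hball⟩ := Metric.eventually_nhds_iff_ball.1 hh.eventually_analyticAt
    filter_upwards [ball_mem_nhds y hr] with z hz
    intro hcon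
    apply hi
    have h1 : ∀ᶠ w in 𝓝 z, G w i = 0 := hcon.mono fun w hw => not_not.1 hw
    have h2 : Set.EqOn (fun w => G w i) 0 (ball y r) :=
      AnalyticOnNhd.eqOn_zero_of_preconnected_of_eventuallyEq_zero (fun w hw => hball w hw) (convex_ball y r).isPreconnected hz h1
    filter_upwards [ball_mem_nhds y hr] with w hw
    exact h2 hw
  have heq : ∀ᶠ z in 𝓝 y, F z = C.nv v (φ z) := by
    filter_upwards [hF.eventually_analyticAt, hψc, hFe.eventually_nhds, hfr] with z h1 h2 h3 h4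
    exact tendsto_nhds_unique_of_frequently_eq h1.continuousAt.tendsto h2.tendsto ((h4.and_eventually h3).mono fun w hw => hw.2 hw.1)
  refine ⟨F, hF, ?_⟩
  filter_upwards [heq, hf, hnd] with z h1 h2 h3
  obtain ⟨x, hx, hxφ, hxu⟩ := h2
  have hx0 : x ≠ 0 := ne_zero hX hx
  rw [← hxφ, C.nd_pr_ne hx0] at h3
  rw [← hxφ, C.nv_pr h3] at h1
  have h4 : F z ≠ 0 := by
    rw [h1]
    exact smul_ne_zero (inv_ne_zero h3) hx0
  have h5 : pr (F z) = pr x := by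
    rw [h1]
    exact Pool.Agent.H62.EF.pr_smul x (inv_ne_zero h3)
  have h6 := mem_of_pr hX ht hx hxu h4 h5
  exact ⟨h6.1, by rw [h5, hxφ], h6.2⟩

end Pool.Agent.G3.E
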