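import Pool.Agent.G3.E.Defs
import Pool.Agent.G3.C.Glue

/-!
# G3 E Line: a section is honest on a line on which its lifts do not vanish identically

At `z₀`: `G (y + z • e) = (z - z₀) ^ m • g z`, `g z₀ ≠ 0`; where `y + z • e ∉ D`, `z ≠ z₀`: `φ (y + z • e) = pr (g z)`.  `W z = pr (g z)` for these `g` (at the points off `D`: `W z = φ (y + z • e)`; both agree: continuity) has
local lifts (`C.LL`), `LL.lift`, `xu_LL` (the values are in `X` and over the line: true off `D`).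
-/

set_option autoImplicit false

open Topology Filter Metric

namespace Pool.Agent.G3.E

open Pool.Agent.H36.BP (EN fs wd)
open Pool.Agent.H14.PP (IsCone CurveAt Tan)
open Pool.Agent.H62.EF (MN pr)
open Pool.Agent.AD (Vd Chart Charts IsGerm)
open Pool.Agent.TG
open Pool.Agent.G3.A
open Pool.Agent.G3.C (Gc)

variable {N k : ℕ}

theorem line_of_lifts {d : ℕ} {X : Set (EN N)} {Λ : AddSubgroup (Vd (k + 1))} {u : EN N → Vd (k + 1)} {D : Set (Vd (k + 1))} (hX : IsCone X) (hch : Charts d X) (ht : TMap X Λ u)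
    (hl : Lat Λ) (hD : IsClosed D) {φ : Vd (k + 1) → MN N} (hφ : Hol X Λ u D φ) {y e : Vd (k + 1)} (hiso : ∀ z₀ : ℂ, ∀ᶠ z in 𝓝[≠] z₀, y + z • e ∉ D)
    (hG : ∀ z₀ : ℂ, MG D φ e (y + z₀ • e)) : ∃ f ∈ Hc X Λ u e y, ∀ z : ℂ, y + z • e ∉ D → f z = φ (y + z • e) := by
  classical
  have hcl : ∀ z₀ : ℂ, Continuous (fun z : ℂ => y + z • e) := fun _ => by fun_prop
  have hcont : Continuous (fun z : ℂ => y + z • e) := hcl 0
  -- the local lifts without zeros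
  have hloc : ∀ z₀ : ℂ, ∃ Φ : ℂ → EN N, AnalyticAt ℂ Φ z₀ ∧ Φ z₀ ≠ 0 ∧ ∀ᶠ z in 𝓝[≠] z₀, y + z • e ∉ D ∧ Φ z ≠ 0 ∧ φ (y + z • e) = pr (Φ z) := by
    intro z₀
    obtain ⟨G, hGa, hGf, hGe⟩ := hG z₀
    have hlin : AnalyticAt ℂ (fun z : ℂ => y + z • e) z₀ := analyticAt_const.add (analyticAt_id.smul analyticAt_const)
    have hga : AnalyticAt ℂ (fun z : ℂ => G (y + z • e)) z₀ := AnalyticAt.comp (g := G) (f := fun z : ℂ => y + z • e) hGa hlin
    have hne : ¬ ∀ᶠ z in 𝓝 z₀, G (y + z • e) = 0 := by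
      intro h
      have ht0 : Tendsto (fun w : ℂ => z₀ + w) (𝓝 0) (𝓝 z₀) := by
        have h1 : Continuous (fun w : ℂ => z₀ + w) := by fun_prop
        have h2 := h1.tendsto 0
        rwa [add_zero] at h2
      have h2 := ht0.eventually h
      obtain ⟨w, hw1, hw2⟩ := (hGf.and_eventually h2).exists
      apply hw1
      rw [add_smul, ← add_assoc] at hw2
      exact hw2
    obtain ⟨m, Φ, hΦa, hΦ0, hΦe⟩ := (hga.exists_eventuallyEq_pow_smul_nonzero_iff).2 hne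
    refine ⟨Φ, hΦa, hΦ0, ?_⟩
    have h1 : ∀ᶠ z in 𝓝[≠] z₀, y + z • e ∉ D := hiso z₀
    have h2 : ∀ᶠ z in 𝓝[≠] z₀, Φ z ≠ 0 := (hΦa.continuousAt.eventually_ne hΦ0).filter_mono nhdsWithin_le_nhds
    have h3 : ∀ᶠ z in 𝓝[≠] z₀, y + z • e ∉ D → G (y + z • e) ≠ 0 → φ (y + z • e) = pr (G (y + z • e)) :=
      ((hcont.tendsto z₀).eventually hGe).filter_mono nhdsWithin_le_nhds
    have h4 : ∀ᶠ z in 𝓝[≠] z₀, z ≠ z₀ := self_mem_nhdsWithin
    filter_upwards [h1, h2, h3, h4, hΦe.filter_mono nhdsWithin_le_nhds] with z a1 a2 a3 a4 a5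
    have a6 : (z - z₀) ^ m ≠ 0 := pow_ne_zero _ (sub_ne_zero.2 a4)
    have a7 : G (y + z • e) ≠ 0 := by
      rw [a5]
      exact smul_ne_zero a6 a2
    refine ⟨a1, a2, ?_⟩
    rw [a3 a1 a7, a5]
    exact Pool.Agent.H62.EF.pr_smul _ a6
  choose Φ hΦa hΦ0 hΦe using hloc
  -- the values off `D`
  have hoff : ∀ z : ℂ, y + z • e ∉ D → pr (Φ z z) = φ (y + z • e) := by
    intro z hz
    obtain ⟨F, hFa, hFe⟩ := hφ _ hz
    have hF0 : F (y + z • e) ≠ 0 := fun h => hX.zero_notMem (h ▸ hFe.self_of_nhds.1)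
    have hc : ContinuousAt (fun w : ℂ => pr (F (y + w • e))) z := by
      have h1 : ContinuousAt (fun w : ℂ => F (y + w • e)) z :=
        ContinuousAt.comp (g := F) (f := fun w : ℂ => y + w • e) hFa.continuousAt hcont.continuousAt
      exact ContinuousAt.comp (g := pr) (f := fun w : ℂ => F (y + w • e)) (Pool.Agent.H62.EF.continuousAt_pr hF0) h1
    have h2 : ∀ᶠ w in 𝓝[≠] z, φ (y + w • e) = pr (F (y + w • e)) :=
      ((hcont.tendsto z).eventually (hFe.mono fun _ h => h.2.1)).filter_mono nhdsWithin_le_nhds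
    have t1 : Tendsto (fun w : ℂ => φ (y + w • e)) (𝓝[≠] z) (𝓝 (pr (F (y + z • e)))) :=
      (hc.tendsto.mono_left nhdsWithin_le_nhds).congr' (h2.mono fun _ h => h.symm)
    have hc' : ContinuousAt (fun w : ℂ => pr (Φ z w)) z :=
      ContinuousAt.comp (g := pr) (f := Φ z) (Pool.Agent.H62.EF.continuousAt_pr (hΦ0 z)) (hΦa z).continuousAt
    have t2 : Tendsto (fun w : ℂ => φ (y + w • e)) (𝓝[≠] z) (𝓝 (pr (Φ z z))) :=
      (hc'.tendsto.mono_left nhdsWithin_le_nhds).congr' ((hΦe z).mono fun _ h => h.2.2.symm)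
    rw [tendsto_nhds_unique t2 t1, hFe.self_of_nhds.2.1]
  -- local lifts
  have hLL : ∀ z₀ : ℂ, Pool.Agent.G3.C.LL (fun z => pr (Φ z z)) z₀ := by
    intro z₀
    refine ⟨Φ z₀, hΦa z₀, hΦ0 z₀, ?_⟩
    have h1 := eventually_nhdsWithin_iff.1 (hΦe z₀)
    filter_upwards [h1] with z hz
    rcases eq_or_ne z z₀ with h | h
    · rw [h]
    · obtain ⟨a1, -, a3⟩ := hz h
      show pr (Φ z z) = pr (Φ z₀ z)
      rw [hoff z a1, a3]
  obtain ⟨F, hF, hF0, hFW⟩ := Pool.Agent.G3.C.LL.lift hLL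
  have hfr : ∀ᶠ w in 𝓝[≠] (0 : ℂ), F w ∈ X ∧ u (F w) - (y + w • e) ∈ Λ := by
    filter_upwards [hiso 0] with w hw
    obtain ⟨H, -, hHe⟩ := hφ _ hw
    obtain ⟨h1, h2, h3⟩ := hHe.self_of_nhds
    exact mem_of_pr hX ht h1 h3 (hF0 w) (by rw [← hFW w, hoff w hw, h2])
  have hall := Pool.Agent.G3.C.xu_global hX hch ht hl (γ := F) (υ := fun w => y + w • e) isOpen_univ isPreconnected_univ hF.differentiableOn (fun z _ => hF0 z)
    ((differentiable_const _).add (differentiable_id.smul_const e)).differentiableOn (Set.mem_univ 0) hfr.frequently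
  refine ⟨fun z => pr (Φ z z), ⟨F, ⟨hF, fun z => (hall z (Set.mem_univ z)).1, fun z => (hall z (Set.mem_univ z)).2⟩, funext hFW⟩, fun z hz => hoff z hz⟩

end Pool.Agent.G3.E
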