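import Pool.Agent.G3.E.Bs
import Pool.Agent.G3.E.BCx
import Pool.Agent.G3.E.CsfM
import Pool.Agent.G3.E.GDx
import Pool.Agent.G3.E.Hol3
import Pool.Agent.G3.A.RegOut
import Pool.Agent.G3.A.TDt
import Pool.Agent.G3.A.DAx
import Pool.Agent.G3.A.LGx
import Pool.Agent.G3.A.Tor
import Pool.Agent.G3.A.TanF
import Pool.Agent.G3.X.Crs

/-!
# G3 E Main: the global sections, assembly

`gd_all`: the global sheets for every direction.  Dimension `3`: `exists_tdat`, block (C), `ncard_const`, `hol3`; dimension `4`: `ToE.ce`, `reg_hol`.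
`end_main`: the set `Csf`, and the geometry of the lines.
-/

set_option autoImplicit false

open Topology Filter Metric

namespace Pool.Agent.G3.E

open Pool.Agent.H36.BP (EN fs wd)
open Pool.Agent.H14.PP (IsCone CurveAt Tan)
open Pool.Agent.H62.EF (MN pr)
open Pool.Agent.AD (Vd Chart Charts IsGerm)
open Pool.Agent.TG
open Pool.Agent.G3.A
open Pool.Agent.G3.C (Gc)
open Pool.Agent.G3 (Csf HPl LDi Simp PS Crs)

variable {N : ℕ} {X : Set (EN N)} {Λ : AddSubgroup (Vd (1 + 1))} {u : EN N → Vd (1 + 1)} {D B : Set (Vd (1 + 1))}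

theorem gd_all {p : EN N → EN N → ℝ} {m J r : ℕ} {K : ℝ} {α : Fin J → VForm X Λ u} {Γ : AddSubgroup (Vd (1 + 1))} {W : Fin r → Vd (1 + 1) →L[ℂ] ℂ}
    (G : Geo X Λ u D B) (hB : ∀ β ∈ B, ∀ l ∈ Λ, β + l ∈ B) (hs : Simp Λ) (hP : PS X Λ u D p m K) (hcr : Crs X Λ u D B) (hF : Frm X Λ u D Γ W α)
    (hJ : ∀ ν : Vd (1 + 1), ν ≠ 0 → ∃ (m : ℕ) (Ψ : C.JForm X Λ u ν m), Ψ.Thin)
    (hfin : ∀ a : Vd (1 + 1), a ≠ 0 → ∃ S : Set (Vd (1 + 1)), S.Finite ∧ ∀ β ∈ Ba D B a, ∃ s ∈ S, β - s ∈ Λ) {a : Vd (1 + 1)} (ha : ‖a‖ = 1) :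
    ∃ S : Set (Vd (1 + 1) → MN N), GD X Λ u D a S := by
  have ha0 : a ≠ 0 := by
    rintro rfl
    rw [norm_zero] at ha
    exact zero_ne_one ha
  obtain ⟨c₀, C₀, ρ, δ, S⟩ := exists_da G hB hs hP hcr hF ha (hfin a ha0)
  obtain ⟨E, hE⟩ := exists_toE G.lat a
  rcases toE_cases S.lg hE with ⟨ν, hbas, hν⟩ | htop
  · -- dimension 3
    obtain ⟨L, hL⟩ := basis_of_span hbas
    have hν0 : ν ≠ 0 := by
      rintro rfl
      obtain ⟨e, L', hL'⟩ := exists_basis ha0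
      obtain ⟨s, z, he⟩ := hbas e
      rw [smul_zero, zero_add] at he
      have h1 : L' (L'.symm (1, 0)) = (1, 0) := L'.apply_symm_apply _
      have h2 : L' (L'.symm (0, z)) = (0, z) := L'.apply_symm_apply _
      have h3 := hL' (L'.symm (1, 0))
      have h4 := hL' (L'.symm (0, z))
      rw [h1] at h3
      rw [h2] at h4
      simp only [one_smul, zero_smul, add_zero, zero_add] at h3 h4
      have h5 : L'.symm (1, 0) = L'.symm (0, z) := by rw [h3, h4, he]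
      have h6 := L'.symm.injective h5
      exact one_ne_zero (congrArg Prod.fst h6)
    have huni : ∀ s z : ℂ, s • ν + z • a = 0 → s = 0 ∧ z = 0 := by
      intro s z h
      obtain ⟨M, hM⟩ : ∃ M : ℂ × ℂ →ₗ[ℂ] Vd (1 + 1), ∀ p, M p = p.1 • ν + p.2 • a :=
        ⟨(LinearMap.fst ℂ ℂ ℂ).smulRight ν + (LinearMap.snd ℂ ℂ ℂ).smulRight a, fun p => by simp⟩
      have hsur : Function.Surjective M := fun v => ⟨L v, by rw [hM]; exact (hL v).symm⟩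
      have hrk : Module.finrank ℂ (ℂ × ℂ) = Module.finrank ℂ (Vd (1 + 1)) := by simp [Vd]
      have hinj : Function.Injective M := (LinearMap.injective_iff_surjective_of_finrank_eq_finrank hrk).2 hsur
      have h1 : M (s, z) = M 0 := by rw [hM, map_zero]; exact h
      have h2 := hinj h1
      exact ⟨congrArg Prod.fst h2, congrArg Prod.snd h2⟩
    obtain ⟨m', P, hPt⟩ := hJ ν hν0
    have hBC : ∀ b, BC X Λ u a ν b := by
      intro b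
      obtain ⟨LT, Dt, Bd, ρ', FF, hT, hFF⟩ := exists_tdat S hF hE hbas huni hν b
      exact bc_of_tdat G.charts hT hFF hPt
    have hCE : ∀ b, CE X Λ u a b ⊤ := ce_top S (ncard_const S hbas hBC)
    exact gd_of_sht S hCE fun φ hφ => hol3 S hCE L hL hBC hφ
  · -- dimension 4
    subst htop
    have hCE : ∀ b, CE X Λ u a b ⊤ := fun b => hE.ce S b
    exact gd_of_sht S hCE fun φ hφ y hy => reg_hol S hF (hCE 0) hφ hy

theorem end_main {p : EN N → EN N → ℝ} {m J r : ℕ} {K : ℝ} {α : Fin J → VForm X Λ u} {Γ : AddSubgroup (Vd (1 + 1))} {W : Fin r → Vd (1 + 1) →L[ℂ] ℂ}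
    (G : Geo X Λ u D B) (hD : ∀ y, ∃ (m : ℕ) (h : Vd (1 + 1) → Fin m → ℂ), AnalyticAt ℂ h y ∧ ∀ᶠ z in 𝓝 y, (z ∈ D ↔ h z = 0))
    (hB : ∃ S : Set (Vd (1 + 1)), S.Finite ∧ ∀ b ∈ B, ∃ s ∈ S, b - s ∈ Λ) (hs : Simp Λ) (hP : PS X Λ u D p m K) (hF : Frm X Λ u D Γ W α)
    (hJ : ∀ ν : Vd (1 + 1), ν ≠ 0 → ∃ (m : ℕ) (Ψ : C.JForm X Λ u ν m), Ψ.Thin) : (∃ S, Csf X Λ u D S) ∧ HPl D B ∧ LDi D := by
  have hne : D ≠ Set.univ := by
    rintro rfl
    obtain ⟨h, -, h1, h2⟩ := G.D_thin 0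
    exact h2 (h1.mono fun z hz => hz (Set.mem_univ z))
  have G' := geo_bl G
  have hBf := bl_fin hB
  have hco : ∀ y ∈ D, y ∉ BL B Λ → ∃ κ : Vd (1 + 1) → Vd (1 + 1), IsCoord D κ y := fun y hy hyB => by
    obtain ⟨κ, hκ, -⟩ := G'.nc y hy hyB
    exact ⟨κ, hκ⟩
  have hfin : ∀ a : Vd (1 + 1), a ≠ 0 → ∃ S : Set (Vd (1 + 1)), S.Finite ∧ ∀ β ∈ Ba D (BL B Λ) a, ∃ s ∈ S, β - s ∈ Λ := fun a ha =>
    tan_fin G.lat hs G.D_closed G.D_inv hD hne hBf hco ha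
  have hiso : ∀ a : Vd (1 + 1), a ≠ 0 → ∀ y : Vd (1 + 1), ∀ᶠ z in 𝓝[≠] (0 : ℂ), y + z • a ∉ D := fun a ha y =>
    line_iso G.lat hs G.D_closed G.D_inv hD hne ha y
  obtain ⟨h1, h2⟩ := ldi G' bl_inv hs hfin
  refine ⟨csf_of_gd G.cone G.charts G.tor G.lat G.D_closed G.D_thin hiso fun a ha =>
    gd_all G' bl_inv hs hP (Pool.Agent.GX.crs G') hF hJ hfin ha, ?_, h1⟩
  intro a ha b
  obtain ⟨ω, η, hω, h⟩ := h2 a ha b
  exact ⟨ω, η, hω, fun z hz hzD => ⟨fun hb => (h z hz hzD).1 (sub_bl hb), (h z hz hzD).2⟩⟩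

end Pool.Agent.G3.E
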