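import Pool.Agent.G3.E.Defs
import Pool.Agent.G3.E.CJ

/-!
# G3 E Mer1: lifts of the sheets near all points, direction `a`

`e` with `(e, a)` a basis of `ℂ²`, `W ζ z = φ (y + ζ • e + z • a)`; `joint_of_circle` at `(0, 0)`: punctured disc without points of `D` (`hiso`), there `W` is jointly holomorphic (`Hol`, composition with
`(ζ, z) ↦ y + ζ • e + z • a`).  The lift `G` is composed with the inverse linear map.
-/

set_option autoImplicit false

open Topology Filter Metric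

namespace Pool.Agent.G3.E

open Pool.Agent.H36.BP (EN fs wd)
open Pool.Agent.H14.PP (IsCone CurveAt Tan)
open Pool.Agent.H62.EF (MN pr)
open Pool.Agent.AD (Vd Chart Charts IsGerm)
open Pool.Agent.TG
open Pool.Agent.G3.A
open Pool.Agent.G3.C (Gc)

variable {N k : ℕ}

/-- an injective linear map `ℂ × ℂ → ℂ²` gives the coordinates -/
private theorem basis_aux {a e : Vd (1 + 1)} (hinj : ∀ c d : ℂ, c • e + d • a = 0 → c = 0 ∧ d = 0) :
    ∃ (e : Vd (1 + 1)) (L : Vd (1 + 1) ≃L[ℂ] ℂ × ℂ), ∀ y, y = (L y).1 • e + (L y).2 • a := by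
  let M : ℂ × ℂ →ₗ[ℂ] Vd (1 + 1) := (LinearMap.fst ℂ ℂ ℂ).smulRight e + (LinearMap.snd ℂ ℂ ℂ).smulRight a
  have hM : ∀ p : ℂ × ℂ, M p = p.1 • e + p.2 • a := fun p => rfl
  have hi : Function.Injective M := by
    rw [injective_iff_map_eq_zero]
    intro p hp
    rw [hM] at hp
    obtain ⟨h1, h2⟩ := hinj _ _ hp
    exact Prod.ext h1 h2
  have hd : Module.finrank ℂ (ℂ × ℂ) = Module.finrank ℂ (Vd (1 + 1)) := by
    rw [Module.finrank_prod, Module.finrank_self, Module.finrank_fin_fun]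
  let E : (ℂ × ℂ) ≃ₗ[ℂ] Vd (1 + 1) := LinearEquiv.ofInjectiveOfFinrankEq M hi hd
  refine ⟨e, E.symm.toContinuousLinearEquiv, fun y => ?_⟩
  have h1 : E (E.symm y) = y := E.apply_symm_apply y
  have h2 : E (E.symm y) = (E.symm y).1 • e + (E.symm y).2 • a := rfl
  exact (h2.symm.trans h1).symm

/-- a basis of `ℂ²` with the second vector `a` -/
theorem exists_basis {a : Vd (1 + 1)} (ha : a ≠ 0) : ∃ (e : Vd (1 + 1)) (L : Vd (1 + 1) ≃L[ℂ] ℂ × ℂ), ∀ y, y = (L y).1 • e + (L y).2 • a := by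
  by_cases h0 : a 0 = 0
  · have h1 : a 1 ≠ 0 := by
      intro h1
      apply ha
      funext i
      fin_cases i
      · exact h0
      · exact h1
    refine basis_aux (e := Pi.single 0 1) (a := a) fun c d h => ?_
    have e0 := congrFun h 0
    have e1 := congrFun h 1
    simp [h0] at e0 e1
    have hd : d = 0 := e1.resolve_right h1
    exact ⟨e0, hd⟩
  · refine basis_aux (e := Pi.single 1 1) (a := a) fun c d h => ?_
    have e0 := congrFun h 0
    have e1 := congrFun h 1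
    simp at e0 e1
    have hd : d = 0 := e0.resolve_right h0
    rw [hd] at e1
    exact ⟨by simpa using e1, hd⟩

/-- differentiable on a ball of `ℂ × ℂ`: analytic at the centre -/
private theorem an_of_diff {E : Type*} [NormedAddCommGroup E] [NormedSpace ℂ E] [CompleteSpace E] {F : ℂ × ℂ → E} {ζ z : ℂ} {r : ℝ} (hr0 : 0 < r)
    (hF : DifferentiableOn ℂ F (ball (ζ, z) r)) : AnalyticAt ℂ F (ζ, z) := by
  have hcb : ContinuousAt F (ζ, z) := (hF.differentiableAt (isOpen_ball.mem_nhds (mem_ball_self hr0))).continuousAt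
  obtain ⟨r', hr', hM⟩ : ∃ r' > 0, ∀ p ∈ ball (ζ, z) r', ‖F p‖ ≤ ‖F (ζ, z)‖ + 1 := by
    obtain ⟨r', hr', h⟩ := Metric.continuousAt_iff.1 hcb 1 one_pos
    refine ⟨r', hr', fun p hp => ?_⟩
    have h1 := h hp
    rw [dist_eq_norm] at h1
    have h2 := norm_le_norm_add_norm_sub' (F p) (F (ζ, z))
    linarith
  obtain ⟨e, he⟩ : ∃ e, e = min r r' := ⟨_, rfl⟩
  have he0 : 0 < e := by rw [he]; exact lt_min hr0 hr'
  have her : e ≤ r := by rw [he]; exact min_le_left _ _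
  have her' : e ≤ r' := by rw [he]; exact min_le_right _ _
  have hpr : ∀ x ∈ ball ζ e, ∀ y ∈ ball z e, (x, y) ∈ ball (ζ, z) e := fun x hx y hy => by
    rw [← ball_prod_same]
    exact ⟨hx, hy⟩
  have hdf : ∀ x ∈ ball ζ e, ∀ y ∈ ball z e, DifferentiableAt ℂ F (x, y) := fun x hx y hy =>
    hF.differentiableAt (isOpen_ball.mem_nhds (ball_subset_ball her (hpr x hx y hy)))
  exact Pool.Agent.TH.osgood he0 (fun x hx y hy => hM _ (ball_subset_ball her' (hpr x hx y hy)))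
    (fun y hy x hx => ((hdf x hx y hy).comp x (differentiableAt_id.prodMk (differentiableAt_const y))).differentiableWithinAt)
    (fun x hx y hy => ((hdf x hx y hy).comp y ((differentiableAt_const x).prodMk differentiableAt_id)).differentiableWithinAt)

theorem mer1 {X : Set (EN N)} {Λ : AddSubgroup (Vd (1 + 1))} {u : EN N → Vd (1 + 1)} {D : Set (Vd (1 + 1))} {a : Vd (1 + 1)} (hX : IsCone X) (hD : IsClosed D) (ha : a ≠ 0)
    (hiso : ∀ y : Vd (1 + 1), ∀ᶠ z in 𝓝[≠] (0 : ℂ), y + z • a ∉ D) {φ : Vd (1 + 1) → MN N} (hφ : Hol X Λ u D φ)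
    (hl : ∀ y, (fun z : ℂ => φ (y + z • a)) ∈ Hc X Λ u a y) (y : Vd (1 + 1)) :
    ∃ G : Vd (1 + 1) → EN N, AnalyticAt ℂ G y ∧ (∃ᶠ w in 𝓝 (0 : ℂ), G (y + w • a) ≠ 0) ∧ ∀ᶠ z in 𝓝 y, G z ≠ 0 → φ z = pr (G z) := by
  obtain ⟨e, L, hL⟩ := exists_basis ha
  have hLi : ∀ c d : ℂ, L (c • e + d • a) = (c, d) := by
    intro c d
    have h1 : ∀ p : ℂ × ℂ, L.symm p = p.1 • e + p.2 • a := by
      intro p
      have h := hL (L.symm p)
      rwa [L.apply_symm_apply] at h
    have h2 := h1 (c, d)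
    rw [← h2, L.apply_symm_apply]
  have hne : ∀ x ∈ X, x ≠ 0 := fun x hx h0 => hX.zero_notMem (h0 ▸ hx)
  obtain ⟨r₀, hr₀, hr⟩ : ∃ r₀ : ℝ, 0 < r₀ ∧ ∀ z : ℂ, 0 < dist z 0 → dist z 0 < r₀ → y + z • a ∉ D := by
    have h := hiso y
    rw [eventually_nhdsWithin_iff, Metric.eventually_nhds_iff] at h
    obtain ⟨r₀, hr₀, hr⟩ := h
    refine ⟨r₀, hr₀, fun z h1 h2 => hr h2 ?_⟩
    rw [Set.mem_compl_iff, Set.mem_singleton_iff]
    exact dist_pos.1 h1
  obtain ⟨ε, hε, G, hG, hG0, hGe⟩ := joint_of_circle (W := fun ζ z => φ (y + ζ • e + z • a)) (ζ₀ := 0) (z₀ := 0)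
    (fun ζ => by
      obtain ⟨F, ⟨hF1, hF2, -⟩, hF3⟩ := hl (y + ζ • e)
      exact ⟨F, hF1, fun z => hne _ (hF2 z), fun z => congrFun hF3 z⟩) hr₀
    (fun z h1 h2 => by
      obtain ⟨F, hF, hFe⟩ := hφ _ (hr z h1 h2)
      have hm : AnalyticAt ℂ (fun p : ℂ × ℂ => y + p.1 • e + p.2 • a) (0, z) :=
        (analyticAt_const.add (analyticAt_fst.smul analyticAt_const)).add (analyticAt_snd.smul analyticAt_const)
      have hm0 : y + ((0 : ℂ), z).1 • e + ((0 : ℂ), z).2 • a = y + z • a := by simp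
      refine ⟨fun p => F (y + p.1 • e + p.2 • a), ?_, ?_⟩
      · exact AnalyticAt.fun_comp (f := fun p : ℂ × ℂ => y + p.1 • e + p.2 • a) (by rw [hm0]; exact hF) hm
      · have hc : Tendsto (fun p : ℂ × ℂ => y + p.1 • e + p.2 • a) (𝓝 (0, z)) (𝓝 (y + z • a)) := by
          have h := hm.continuousAt.tendsto
          rwa [hm0] at h
        filter_upwards [hc.eventually hFe] with p hp
        exact ⟨hne _ hp.1, hp.2.1⟩)
  have hc0 : Continuous fun w : Vd (1 + 1) => L (w - y) := by fun_prop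
  refine ⟨fun w => G (L (w - y)), ?_, ?_, ?_⟩
  · have hGa : AnalyticAt ℂ G ((0 : ℂ), (0 : ℂ)) := an_of_diff hε hG
    have hm : AnalyticAt ℂ (fun w : Vd (1 + 1) => L (w - y)) y := (L.analyticAt _).fun_comp (analyticAt_id.sub analyticAt_const)
    refine AnalyticAt.fun_comp (f := fun w : Vd (1 + 1) => L (w - y)) ?_ hm
    have h0 : L (y - y) = ((0 : ℂ), (0 : ℂ)) := by rw [sub_self, map_zero]; rfl
    rw [h0]
    exact hGa
  · have hLw : ∀ w : ℂ, L (y + w • a - y) = (0, w) := by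
      intro w
      have h := hLi 0 w
      rw [zero_smul, zero_add] at h
      rw [add_sub_cancel_left, h]
    have hfun : (fun w : ℂ => G (L (y + w • a - y))) = fun w => G (0, w) := by
      funext w
      rw [hLw]
    intro hcon
    obtain ⟨z, hz, hGz⟩ := hG0 0 (mem_ball_self hε)
    apply hGz
    have hd : DifferentiableOn ℂ (fun w : ℂ => G (0, w)) (ball 0 ε) := by
      refine hG.comp ((differentiable_const (0 : ℂ)).prodMk differentiable_id).differentiableOn fun w hw => ?_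
      rw [← ball_prod_same]
      exact ⟨mem_ball_self hε, hw⟩
    have hev : (fun w : ℂ => G (0, w)) =ᶠ[𝓝 0] 0 := by
      filter_upwards [hcon] with w hw
      have h := not_not.1 hw
      simp only [hLw] at h
      exact h
    exact (hd.analyticOnNhd isOpen_ball).eqOn_zero_of_preconnected_of_eventuallyEq_zero (convex_ball _ _).isPreconnected (mem_ball_self hε) hev hz
  · have h1 : ∀ᶠ w in 𝓝 y, L (w - y) ∈ ball ((0 : ℂ), (0 : ℂ)) ε := by
      have h0 : L (y - y) = ((0 : ℂ), (0 : ℂ)) := by rw [sub_self, map_zero]; rfl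
      have h := hc0.continuousAt (x := y)
      have h2 : Tendsto (fun w : Vd (1 + 1) => L (w - y)) (𝓝 y) (𝓝 ((0 : ℂ), (0 : ℂ))) := by
        have h3 := h.tendsto
        rwa [h0] at h3
      exact h2.eventually (ball_mem_nhds _ hε)
    filter_upwards [h1] with w hw hw0
    have h2 := hGe _ hw hw0
    have h3 : y + (L (w - y)).1 • e + (L (w - y)).2 • a = w := by
      rw [add_assoc, ← hL (w - y), add_sub_cancel]
    simp only [h3] at h2
    exact h2

theorem GD.mg {X : Set (EN N)} {Λ : AddSubgroup (Vd (1 + 1))} {u : EN N → Vd (1 + 1)} {D : Set (Vd (1 + 1))} {a : Vd (1 + 1)} {S : Set (Vd (1 + 1) → MN N)} (h : GD X Λ u D a S)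
    (hX : IsCone X) (hD : IsClosed D) (ha : a ≠ 0) (hiso : ∀ y : Vd (1 + 1), ∀ᶠ z in 𝓝[≠] (0 : ℂ), y + z • a ∉ D) {φ : Vd (1 + 1) → MN N} (hφ : φ ∈ S) (y : Vd (1 + 1)) :
    MG D φ a y := by
  obtain ⟨G, h1, h2, h3⟩ := mer1 hX hD ha hiso (h.hol φ hφ) (h.line φ hφ) y
  exact ⟨G, h1, h2, h3.mono fun z hz _ => hz⟩

end Pool.Agent.G3.E
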